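import Pool.Agent.X103.Rw.L

/-! # Linear regression for isotropic waves in every dimension -/

set_option autoImplicit false
open MeasureTheory Filter Topology Set
open scoped ContDiff ENNReal

namespace Pool.Agent.X103.Rw.Dim

open Pool.Agent.Y139.SW Pool.Agent.X127.SW

noncomputable section

variable {d : ℕ} {S : Type*} [MeasurableSpace S] {P : Measure S} {τ : E d → S → S}

/-- linear regression on the canonical space -/
theorem reg [IsProbabilityMeasure P] (hτ : ∀ x, MeasurePreserving (τ x) P P)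
    {G : S → E d → ℝ} (W : Wave P τ G)
    (hrot : ∀ ρ : E d ≃ₗᵢ[ℝ] E d, P.map (fun s y => G s (ρ y)) = P.map (fun s y => G s y))
    {Φ : ℝ → ℝ} (mΦ : Measurable Φ) (iΦ : Integrable (fun s => Φ (G s 0) ^ 2) P) (x : E d) :
    (∫ s, G s 0 ^ 2 ∂P) * (∫ s, G s x * Φ (G s 0) ∂P) =
      (∫ s, G s x * G s 0 ∂P) * ∫ s, G s 0 * Φ (G s 0) ∂P := by
  obtain ⟨m, hm⟩ : ∃ m, m = ∫ s, G s 0 ^ 2 ∂P := ⟨_, rfl⟩
  obtain ⟨b, hb⟩ : ∃ b, b = ∫ s, G s 0 * Φ (G s 0) ∂P := ⟨_, rfl⟩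
  have mG := W.sf.meas
  have mz : Measurable fun s => Φ (G s 0) := mΦ.comp (mG 0)
  obtain ⟨Z, hZ⟩ : ∃ Z : S → ℝ, Z = fun s => m * Φ (G s 0) - b * G s 0 := ⟨_, rfl⟩
  have mZ : Measurable Z := by rw [hZ]; exact (mz.const_mul m).sub ((mG 0).const_mul b)
  have iZ : Integrable (fun s => Z s ^ 2) P := by
    have e : ∀ s, Z s ^ 2 = m ^ 2 * Φ (G s 0) ^ 2 - 2 * m * b * (Φ (G s 0) * G s 0) +
        b ^ 2 * G s 0 ^ 2 := fun s => by rw [hZ]; ring
    simp only [e]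
    exact ((iΦ.const_mul _).sub ((mul_l2 mz (mG 0) iΦ W.l2).const_mul _)).add
      (W.l2.const_mul _)
  have val : ∀ y, Cr P G Z y = m * (∫ s, G s y * Φ (G s 0) ∂P) - b * ∫ s, G s y * G s 0 ∂P := by
    intro y
    unfold Cr
    have e : ∀ s, Z s * G s y = m * (G s y * Φ (G s 0)) - b * (G s y * G s 0) := fun s => by
      rw [hZ]; ring
    simp only [e]
    have j1 : Integrable (fun s => m * (G s y * Φ (G s 0))) P :=
      (mul_l2 (mG y) mz (sqi hτ W y) iΦ).const_mul _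
    have j2 : Integrable (fun s => b * (G s y * G s 0)) P :=
      (mul_l2 (mG y) (mG 0) (sqi hτ W y) W.l2).const_mul _
    rw [integral_sub j1 j2, integral_const_mul, integral_const_mul]
  have rad : ∀ x y : E d, ‖x‖ = ‖y‖ → Cr P G Z x = Cr P G Z y := by
    intro x y hxy
    have hr := Submodule.reflection_sub hxy
    obtain ⟨ρ, hρ⟩ : ∃ ρ : E d ≃ₗᵢ[ℝ] E d, ρ x = y :=
      ⟨(Submodule.span ℝ {x - y})ᗮ.reflection, hr⟩
    have p0 : Measurable fun f : E d → ℝ => f 0 := measurable_pi_apply 0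
    have px : Measurable fun f : E d → ℝ => f x := measurable_pi_apply x
    have mk : Measurable fun f : E d → ℝ => (m * Φ (f 0) - b * f 0) * f x :=
      (((mΦ.comp p0).const_mul m).sub (p0.const_mul b)).mul px
    have h1 := integral_map (μ := P) (measurable_pi_iff.2 fun y => mG (ρ y)).aemeasurable
      (f := fun f : E d → ℝ => (m * Φ (f 0) - b * f 0) * f x) mk.aestronglyMeasurable
    have h2 := integral_map (μ := P) (measurable_pi_iff.2 fun y => mG y).aemeasurable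
      (f := fun f : E d → ℝ => (m * Φ (f 0) - b * f 0) * f x) mk.aestronglyMeasurable
    rw [hrot ρ, h2] at h1
    simp only [map_zero, hρ] at h1
    unfold Cr
    rw [hZ]
    exact h1
  have z0 : Cr P G Z 0 = 0 := by
    rw [val, ← hb]
    have : ∫ s, G s 0 * G s 0 ∂P = m := by
      rw [hm]; congr 1; funext s; ring
    rw [this]; ring
  have h := rad_zero hτ W mZ iZ rad z0 x
  rw [val] at h
  rw [← hm, ← hb]
  linarith

/-- linear regression on arbitrary probability spaces -/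
theorem reg_field [IsProbabilityMeasure P] {F : S → E d → ℝ}
    (mF : ∀ y, Measurable fun s => F s y)
    (sF : ∀ s, ContDiff ℝ ∞ (F s)) (eF : ∀ s y, Lap (F s) y + F s y = 0)
    (st : ∀ x : E d, P.map (fun s y => F s (y + x)) = P.map (fun s y => F s y))
    (l2 : Integrable (fun s => F s 0 ^ 2) P)
    (hrot : ∀ ρ : E d ≃ₗᵢ[ℝ] E d, P.map (fun s y => F s (ρ y)) = P.map (fun s y => F s y))
    {Φ : ℝ → ℝ} (mΦ : Measurable Φ) (iΦ : Integrable (fun s => Φ (F s 0) ^ 2) P) (x : E d) :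
    (∫ s, F s 0 ^ 2 ∂P) * (∫ s, F s x * Φ (F s 0) ∂P) =
      (∫ s, F s x * F s 0 ∂P) * ∫ s, F s 0 * Φ (F s 0) ∂P := by
  obtain ⟨Ψ, mΨ, v1, hQ, hτ, W⟩ := red (P := P) mF sF eF st l2
  have tr : ∀ φ : Sp d → ℝ, Measurable φ → ∫ f, φ f ∂(P.map Ψ) = ∫ s, φ (Ψ s) ∂P :=
    fun φ hφ => integral_map mΨ.aemeasurable hφ.aestronglyMeasurable
  have mg : ∀ z : E d, Measurable fun f : Sp d => f.1 z := W.sf.meas
  have rot : ∀ ρ : E d ≃ₗᵢ[ℝ] E d, (P.map Ψ).map (fun (f : Sp d) y => f.1 (ρ y)) =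
      (P.map Ψ).map (fun (f : Sp d) y => f.1 y) := by
    intro ρ
    rw [Measure.map_map (measurable_pi_iff.2 fun y => mg (ρ y)) mΨ,
      Measure.map_map (measurable_pi_iff.2 fun y => mg y) mΨ]
    have e1 : (fun (f : Sp d) y => f.1 (ρ y)) ∘ Ψ = fun s y => F s (ρ y) := by
      funext s y
      show (Ψ s).1 (ρ y) = _
      rw [v1]
    have e2 : (fun (f : Sp d) y => f.1 y) ∘ Ψ = fun s y => F s y := by
      funext s y
      show (Ψ s).1 y = _
      rw [v1]
    rw [e1, e2]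
    exact hrot ρ
  have i2 : Integrable (fun f : Sp d => Φ (f.1 0) ^ 2) (P.map Ψ) := by
    refine (integrable_map_measure ((mΦ.comp (mg 0)).pow_const 2).aestronglyMeasurable
      mΨ.aemeasurable).2 (iΦ.congr (ae_of_all _ fun s => ?_))
    show Φ (F s 0) ^ 2 = Φ ((Ψ s).1 0) ^ 2
    rw [v1]
  have h := reg hτ W rot mΦ i2 x
  rw [tr (fun f => f.1 0 ^ 2) ((mg 0).pow_const 2),
    tr (fun f => f.1 x * Φ (f.1 0)) ((mg x).mul (mΦ.comp (mg 0))),
    tr (fun f => f.1 x * f.1 0) ((mg x).mul (mg 0)),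
    tr (fun f => f.1 0 * Φ (f.1 0)) ((mg 0).mul (mΦ.comp (mg 0)))] at h
  simp only [v1] at h
  exact h

end

end Pool.Agent.X103.Rw.Dim
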