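import Mathlib

/-! # The function `J₀` as an average over the circle: mean square lower bound -/

set_option autoImplicit false
open MeasureTheory Filter Topology Set

namespace Pool.Agent.X103.Rw

noncomputable section

/-- `J₀` -/
def J (r : ℝ) : ℝ := ∫ t in (0 : ℝ)..1, Real.cos (r * Real.cos (2 * Real.pi * t))

/-- derivative -/
def J1 (r : ℝ) : ℝ :=
  ∫ t in (0 : ℝ)..1, -(Real.cos (2 * Real.pi * t) * Real.sin (r * Real.cos (2 * Real.pi * t)))

/-- second derivative -/
def J2 (r : ℝ) : ℝ :=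
  ∫ t in (0 : ℝ)..1, -(Real.cos (2 * Real.pi * t) ^ 2 *
    Real.cos (r * Real.cos (2 * Real.pi * t)))

lemma hJ (r : ℝ) : HasDerivAt J (J1 r) r := by
  have h := intervalIntegral.hasDerivAt_integral_of_dominated_loc_of_deriv_le (μ := volume)
    (F := fun r t => Real.cos (r * Real.cos (2 * Real.pi * t)))
    (F' := fun r t => -(Real.cos (2 * Real.pi * t) * Real.sin (r * Real.cos (2 * Real.pi * t))))
    (x₀ := r) (s := Set.univ) (a := 0) (b := 1) (bound := fun _ => 1) Filter.univ_mem
    (Eventually.of_forall fun x => (by fun_prop : Continuous fun t =>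
      Real.cos (x * Real.cos (2 * Real.pi * t))).aestronglyMeasurable)
    ((by fun_prop : Continuous fun t =>
      Real.cos (r * Real.cos (2 * Real.pi * t))).intervalIntegrable _ _)
    (by fun_prop : Continuous fun t => -(Real.cos (2 * Real.pi * t) *
      Real.sin (r * Real.cos (2 * Real.pi * t)))).aestronglyMeasurable
    (ae_of_all _ fun t _ x _ => by
      rw [norm_neg, norm_mul, Real.norm_eq_abs, Real.norm_eq_abs]
      exact mul_le_one₀ (Real.abs_cos_le_one _) (abs_nonneg _) (Real.abs_sin_le_one _))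
    (continuous_const.intervalIntegrable _ _)
    (ae_of_all _ fun t _ x _ => by
      have h1 := ((hasDerivAt_id x).mul_const (Real.cos (2 * Real.pi * t))).cos
      refine h1.congr_deriv ?_
      simp only [id_eq]; ring)
  exact h.2

lemma hJ1 (r : ℝ) : HasDerivAt J1 (J2 r) r := by
  have h := intervalIntegral.hasDerivAt_integral_of_dominated_loc_of_deriv_le (μ := volume)
    (F := fun r t => -(Real.cos (2 * Real.pi * t) * Real.sin (r * Real.cos (2 * Real.pi * t))))
    (F' := fun r t => -(Real.cos (2 * Real.pi * t) ^ 2 *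
      Real.cos (r * Real.cos (2 * Real.pi * t))))
    (x₀ := r) (s := Set.univ) (a := 0) (b := 1) (bound := fun _ => 1) Filter.univ_mem
    (Eventually.of_forall fun x => (by fun_prop : Continuous fun t =>
      -(Real.cos (2 * Real.pi * t) * Real.sin (x * Real.cos (2 * Real.pi * t)))).aestronglyMeasurable)
    ((by fun_prop : Continuous fun t =>
      -(Real.cos (2 * Real.pi * t) * Real.sin (r * Real.cos (2 * Real.pi * t)))).intervalIntegrable _ _)
    (by fun_prop : Continuous fun t => -(Real.cos (2 * Real.pi * t) ^ 2 *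
      Real.cos (r * Real.cos (2 * Real.pi * t)))).aestronglyMeasurable
    (ae_of_all _ fun t _ x _ => by
      rw [norm_neg, norm_mul, norm_pow, Real.norm_eq_abs, Real.norm_eq_abs]
      exact mul_le_one₀ (pow_le_one₀ (abs_nonneg _) (Real.abs_cos_le_one _)) (abs_nonneg _)
        (Real.abs_cos_le_one _))
    (continuous_const.intervalIntegrable _ _)
    (ae_of_all _ fun t _ x _ => by
      have h1 := (((hasDerivAt_id x).mul_const (Real.cos (2 * Real.pi * t))).sin.const_mul
        (Real.cos (2 * Real.pi * t))).neg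
      refine h1.congr_deriv ?_
      simp only [id_eq]; ring)
  exact h.2

lemma J_cont : Continuous J := continuous_iff_continuousAt.2 fun r => (hJ r).continuousAt

lemma J1_cont : Continuous J1 := continuous_iff_continuousAt.2 fun r => (hJ1 r).continuousAt

/-- Bessel's equation -/
lemma ode (r : ℝ) : r * (J2 r + J r) + J1 r = 0 := by
  have c1 : Continuous fun t => Real.cos (r * Real.cos (2 * Real.pi * t)) := by fun_prop
  have c2 : Continuous fun t => -(Real.cos (2 * Real.pi * t) *
    Real.sin (r * Real.cos (2 * Real.pi * t))) := by fun_prop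
  have c3 : Continuous fun t => -(Real.cos (2 * Real.pi * t) ^ 2 *
    Real.cos (r * Real.cos (2 * Real.pi * t))) := by fun_prop
  have p0 := Real.pi_pos
  have hd : ∀ t : ℝ, HasDerivAt (fun t => -(1 / (2 * Real.pi)) * (Real.sin (2 * Real.pi * t) *
      Real.sin (r * Real.cos (2 * Real.pi * t))))
      (r * (-(Real.cos (2 * Real.pi * t) ^ 2 * Real.cos (r * Real.cos (2 * Real.pi * t))) +
        Real.cos (r * Real.cos (2 * Real.pi * t))) +
        -(Real.cos (2 * Real.pi * t) * Real.sin (r * Real.cos (2 * Real.pi * t)))) t := by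
    intro t
    have h0 : HasDerivAt (fun t : ℝ => 2 * Real.pi * t) (2 * Real.pi) t := by
      simpa using (hasDerivAt_id t).const_mul (2 * Real.pi)
    have h1 := h0.sin
    have h2 := ((h0.cos).const_mul r).sin
    have h3 := (h1.mul h2).const_mul (-(1 / (2 * Real.pi)))
    refine h3.congr_deriv ?_
    have h4 := Real.sin_sq_add_cos_sq (2 * Real.pi * t)
    have h5 : Real.cos (2 * Real.pi * t) ^ 2 = 1 - Real.sin (2 * Real.pi * t) ^ 2 := by linarith
    rw [h5]
    field_simp
    ring
  have key := intervalIntegral.integral_eq_sub_of_hasDerivAt (a := 0) (b := 1)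
    (fun t _ => hd t) ((by fun_prop : Continuous fun t : ℝ =>
      (r * (-(Real.cos (2 * Real.pi * t) ^ 2 * Real.cos (r * Real.cos (2 * Real.pi * t))) +
        Real.cos (r * Real.cos (2 * Real.pi * t))) +
        -(Real.cos (2 * Real.pi * t) * Real.sin (r * Real.cos (2 * Real.pi * t))))).intervalIntegrable _ _)
  have e : r * (J2 r + J r) + J1 r = ∫ t in (0 : ℝ)..1,
      (r * (-(Real.cos (2 * Real.pi * t) ^ 2 * Real.cos (r * Real.cos (2 * Real.pi * t))) +
        Real.cos (r * Real.cos (2 * Real.pi * t))) +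
        -(Real.cos (2 * Real.pi * t) * Real.sin (r * Real.cos (2 * Real.pi * t)))) := by
    have c4 : Continuous fun t => r * (-(Real.cos (2 * Real.pi * t) ^ 2 *
        Real.cos (r * Real.cos (2 * Real.pi * t))) +
        Real.cos (r * Real.cos (2 * Real.pi * t))) := by fun_prop
    unfold J J1 J2
    rw [intervalIntegral.integral_add (c4.intervalIntegrable _ _)
      (c2.intervalIntegrable _ _), intervalIntegral.integral_const_mul,
      intervalIntegral.integral_add (c3.intervalIntegrable _ _) (c1.intervalIntegrable _ _)]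
  rw [e, key]
  simp

/-- the energy `v'² + v²`, `v = √r J₀(r)` -/
def En (r : ℝ) : ℝ := r * J1 r ^ 2 + J r * J1 r + J r ^ 2 / (4 * r) + r * J r ^ 2

/-- `v v'` -/
def Vv (r : ℝ) : ℝ := r * (J r * J1 r) + J r ^ 2 / 2

lemma J2_eq {r : ℝ} (hr : 0 < r) : J2 r = -J1 r / r - J r := by
  have h := ode r
  field_simp
  linarith

lemma hVv {r : ℝ} (hr : 0 < r) :
    HasDerivAt Vv (En r - (2 + 1 / (4 * r ^ 2)) * (r * J r ^ 2)) r := by
  have h := ((hasDerivAt_id r).mul ((hJ r).mul (hJ1 r))).add (((hJ r).pow 2).div_const 2)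
  refine h.congr_deriv ?_
  simp only [id_eq, Pi.mul_apply, Pi.pow_apply, Pi.add_apply, Nat.cast_ofNat]
  rw [J2_eq hr]
  unfold En
  field_simp
  ring

lemma hEn {r : ℝ} (hr : 0 < r) : HasDerivAt En (-Vv r / (2 * r ^ 2)) r := by
  have h4 : HasDerivAt (fun r : ℝ => 4 * r) 4 r := by
    simpa using (hasDerivAt_id r).const_mul (4 : ℝ)
  have h := ((((hasDerivAt_id r).mul ((hJ1 r).pow 2)).add ((hJ r).mul (hJ1 r))).add
    (((hJ r).pow 2).div h4 (by positivity))).add ((hasDerivAt_id r).mul ((hJ r).pow 2))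
  refine h.congr_deriv ?_
  simp only [id_eq, Pi.mul_apply, Pi.pow_apply, Pi.add_apply, Nat.cast_ofNat]
  rw [J2_eq hr]
  unfold Vv
  field_simp
  ring

lemma En_form {r : ℝ} (hr : 0 < r) :
    En r = r * (J1 r + J r / (2 * r)) ^ 2 + r * J r ^ 2 := by
  unfold En
  field_simp
  ring

lemma Vv_form {r : ℝ} (hr : 0 < r) : Vv r = r * ((J1 r + J r / (2 * r)) * J r) := by
  unfold Vv
  field_simp

lemma En_nn {r : ℝ} (hr : 0 < r) : 0 ≤ En r := by rw [En_form hr]; positivity

lemma Vv_le {r : ℝ} (hr : 0 < r) : |Vv r| ≤ En r / 2 := by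
  rw [Vv_form hr, En_form hr, abs_mul, abs_of_pos hr, abs_mul]
  obtain ⟨a, ha⟩ : ∃ a, a = J1 r + J r / (2 * r) := ⟨_, rfl⟩
  rw [← ha, ← sq_abs a, ← sq_abs (J r)]
  nlinarith [mul_nonneg hr.le (sq_nonneg (|a| - |J r|))]

lemma mono1 : MonotoneOn (fun r => En r * Real.exp (-(1 / (4 * r)))) (Ici 1) := by
  have hd : ∀ r ∈ Ici (1 : ℝ), HasDerivAt (fun r => En r * Real.exp (-(1 / (4 * r))))
      (Real.exp (-(1 / (4 * r))) * (-Vv r / (2 * r ^ 2) + En r / (4 * r ^ 2))) r := by
    intro r hr
    have r0 : 0 < r := lt_of_lt_of_le one_pos hr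
    have h4 : HasDerivAt (fun r : ℝ => 4 * r) 4 r := by
      simpa using (hasDerivAt_id r).const_mul (4 : ℝ)
    have h5 := (((hasDerivAt_const r (1 : ℝ)).div h4 (by positivity)).neg).exp
    refine ((hEn r0).mul h5).congr_deriv ?_
    try simp only [Pi.neg_apply, Pi.div_apply]
    field_simp
    ring
  refine monotoneOn_of_deriv_nonneg (convex_Ici 1)
    (fun r hr => (hd r hr).continuousAt.continuousWithinAt)
    (fun r hr => ((hd r (interior_subset hr)).differentiableAt).differentiableWithinAt)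
    fun r hr => ?_
  rw [(hd r (interior_subset hr)).deriv]
  have r0 : 0 < r := lt_of_lt_of_le one_pos (interior_subset hr : r ∈ Ici (1 : ℝ))
  refine mul_nonneg (Real.exp_pos _).le ?_
  have h1 := (abs_le.1 (Vv_le r0)).2
  have e : -Vv r / (2 * r ^ 2) + En r / (4 * r ^ 2) = (En r / 2 - Vv r) / (2 * r ^ 2) := by
    field_simp
    ring
  rw [e]
  exact div_nonneg (by linarith) (by positivity)

lemma mono2 : AntitoneOn (fun r => En r * Real.exp (1 / (4 * r))) (Ici 1) := by
  have hd : ∀ r ∈ Ici (1 : ℝ), HasDerivAt (fun r => En r * Real.exp (1 / (4 * r)))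
      (Real.exp (1 / (4 * r)) * (-Vv r / (2 * r ^ 2) - En r / (4 * r ^ 2))) r := by
    intro r hr
    have r0 : 0 < r := lt_of_lt_of_le one_pos hr
    have h4 : HasDerivAt (fun r : ℝ => 4 * r) 4 r := by
      simpa using (hasDerivAt_id r).const_mul (4 : ℝ)
    have h5 := ((hasDerivAt_const r (1 : ℝ)).div h4 (by positivity)).exp
    refine ((hEn r0).mul h5).congr_deriv ?_
    try simp only [Pi.neg_apply, Pi.div_apply]
    field_simp
    ring
  refine antitoneOn_of_deriv_nonpos (convex_Ici 1)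
    (fun r hr => (hd r hr).continuousAt.continuousWithinAt)
    (fun r hr => ((hd r (interior_subset hr)).differentiableAt).differentiableWithinAt)
    fun r hr => ?_
  rw [(hd r (interior_subset hr)).deriv]
  have r0 : 0 < r := lt_of_lt_of_le one_pos (interior_subset hr : r ∈ Ici (1 : ℝ))
  refine mul_nonpos_of_nonneg_of_nonpos (Real.exp_pos _).le ?_
  have h1 := (abs_le.1 (Vv_le r0)).1
  have e : -Vv r / (2 * r ^ 2) - En r / (4 * r ^ 2) = -((En r / 2 + Vv r) / (2 * r ^ 2)) := by
    field_simp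
    ring
  rw [e]
  exact neg_nonpos.2 (div_nonneg (by linarith) (by positivity))

lemma J_one : 0 < J 1 := by
  unfold J
  have hc : Continuous fun t => Real.cos (1 * Real.cos (2 * Real.pi * t)) := by fun_prop
  refine intervalIntegral.intervalIntegral_pos_of_pos (hc.intervalIntegrable _ _)
    (fun t => ?_) one_pos
  have h1 := abs_le.1 (Real.abs_cos_le_one (2 * Real.pi * t))
  have h2 := Real.pi_gt_three
  exact Real.cos_pos_of_mem_Ioo ⟨by linarith [h1.1], by linarith [h1.2]⟩

lemma En_one : 0 < En 1 := by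
  rw [En_form one_pos]
  have := J_one
  positivity

/-- mean square lower bound for `J₀` -/
theorem J_ms : ∃ c : ℝ, 0 < c ∧ ∀ R : ℝ, 1 ≤ R → c * R ≤ ∫ r in (0 : ℝ)..R, r * J r ^ 2 := by
  obtain ⟨c1, hc1⟩ : ∃ c1, c1 = En 1 * Real.exp (-(1 / 4)) := ⟨_, rfl⟩
  have c1p : 0 < c1 := by rw [hc1]; exact mul_pos En_one (Real.exp_pos _)
  obtain ⟨C1, hC1⟩ : ∃ C1, C1 = En 1 * Real.exp (1 / 4) := ⟨_, rfl⟩
  have C1p : 0 < C1 := by rw [hC1]; exact mul_pos En_one (Real.exp_pos _)
  have lowE : ∀ r, 1 ≤ r → c1 ≤ En r := by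
    intro r hr
    have r0 : 0 < r := by linarith
    have h := mono1 (mem_Ici.2 le_rfl) (mem_Ici.2 hr) hr
    simp only [mul_one] at h
    rw [← hc1] at h
    refine h.trans ?_
    have : Real.exp (-(1 / (4 * r))) ≤ 1 := Real.exp_le_one_iff.2 (by
      have : 0 < 1 / (4 * r) := by positivity
      linarith)
    nlinarith [En_nn r0, Real.exp_pos (-(1 / (4 * r)))]
  have upE : ∀ r, 1 ≤ r → En r ≤ C1 := by
    intro r hr
    have r0 : 0 < r := by linarith
    have h := mono2 (mem_Ici.2 le_rfl) (mem_Ici.2 hr) hr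
    simp only [mul_one] at h
    rw [← hC1] at h
    refine le_trans ?_ h
    have : 1 ≤ Real.exp (1 / (4 * r)) := Real.one_le_exp (by positivity)
    nlinarith [En_nn r0]
  have cM : Continuous fun r => r * J r ^ 2 := continuous_id.mul (J_cont.pow 2)
  obtain ⟨M, hM⟩ : ∃ M : ℝ → ℝ, M = fun R => ∫ r in (0 : ℝ)..R, r * J r ^ 2 := ⟨_, rfl⟩
  have dM : ∀ R, HasDerivAt M (R * J R ^ 2) R := fun R => by
    rw [hM]
    exact intervalIntegral.integral_hasDerivAt_right (cM.intervalIntegrable _ _)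
      (cM.stronglyMeasurableAtFilter _ _) cM.continuousAt
  have mon : MonotoneOn (fun r => 9 / 4 * M r + Vv r - c1 * r) (Ici 1) := by
    have hd : ∀ r ∈ Ici (1 : ℝ), HasDerivAt (fun r => 9 / 4 * M r + Vv r - c1 * r)
        (9 / 4 * (r * J r ^ 2) + (En r - (2 + 1 / (4 * r ^ 2)) * (r * J r ^ 2)) - c1) r := by
      intro r hr
      have r0 : 0 < r := lt_of_lt_of_le one_pos hr
      have hc : HasDerivAt (fun r : ℝ => c1 * r) c1 r := by
        simpa using (hasDerivAt_id r).const_mul c1
      exact (((dM r).const_mul (9 / 4)).add (hVv r0)).sub hc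
    refine monotoneOn_of_deriv_nonneg (convex_Ici 1)
      (fun r hr => (hd r hr).continuousAt.continuousWithinAt)
      (fun r hr => ((hd r (interior_subset hr)).differentiableAt).differentiableWithinAt)
      fun r hr => ?_
    rw [(hd r (interior_subset hr)).deriv]
    have r1 : 1 ≤ r := (interior_subset hr : r ∈ Ici (1 : ℝ))
    have r0 : 0 < r := by linarith
    have h1 := lowE r r1
    have h2 : 1 / (4 * r ^ 2) ≤ 1 / 4 := by
      rw [div_le_div_iff₀ (by positivity) (by norm_num)]
      nlinarith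
    have h3 : 0 ≤ r * J r ^ 2 := by positivity
    nlinarith
  obtain ⟨m1, hm1⟩ : ∃ m1, m1 = ∫ r in (0 : ℝ)..1, r * J r ^ 2 := ⟨_, rfl⟩
  have m1p : 0 < m1 := by
    rw [hm1]
    refine intervalIntegral.integral_pos one_pos cM.continuousOn (fun r hr => ?_)
      ⟨1, ⟨zero_le_one, le_rfl⟩, ?_⟩
    · exact mul_nonneg hr.1.le (sq_nonneg _)
    · have := J_one
      positivity
  obtain ⟨R0, hR0⟩ : ∃ R0, R0 = 2 + 2 * C1 / c1 := ⟨_, rfl⟩
  have R0p : 0 < R0 := by rw [hR0]; positivity
  refine ⟨min (2 / 9 * c1) (m1 / R0), lt_min (by positivity) (by positivity), fun R hR => ?_⟩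
  have R00 : 0 < R := by linarith
  by_cases h : R0 ≤ R
  · have h1 := mon (mem_Ici.2 le_rfl) (mem_Ici.2 hR) hR
    have v1 := (abs_le.1 (Vv_le one_pos)).1
    have v2 := (abs_le.1 (Vv_le R00)).2
    have e1 := upE 1 le_rfl
    have e2 := upE R hR
    have M1 : 0 ≤ M 1 := by
      have : M 1 = m1 := by rw [hM, hm1]
      rw [this]; exact m1p.le
    have h2 : 9 / 4 * M 1 + Vv 1 - c1 * 1 ≤ 9 / 4 * M R + Vv R - c1 * R := h1
    have h3 : c1 * (R - 1) - C1 ≤ 9 / 4 * M R := by nlinarith
    have h4 : c1 * R0 = 2 * c1 + 2 * C1 := by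
      rw [hR0]; field_simp
    have h5 : c1 * R0 ≤ c1 * R := mul_le_mul_of_nonneg_left h c1p.le
    have h6 : 1 / 2 * (c1 * R) ≤ c1 * (R - 1) - C1 := by nlinarith
    have h7 : min (2 / 9 * c1) (m1 / R0) * R ≤ 2 / 9 * c1 * R :=
      mul_le_mul_of_nonneg_right (min_le_left _ _) R00.le
    have h8 : M R = ∫ r in (0 : ℝ)..R, r * J r ^ 2 := by rw [hM]
    rw [← h8]
    nlinarith
  · push Not at h
    have h7 : min (2 / 9 * c1) (m1 / R0) * R ≤ m1 / R0 * R :=
      mul_le_mul_of_nonneg_right (min_le_right _ _) R00.le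
    have h8 : m1 / R0 * R ≤ m1 := by
      rw [div_mul_eq_mul_div, div_le_iff₀ R0p]
      nlinarith
    refine h7.trans (h8.trans ?_)
    rw [hm1, ← intervalIntegral.integral_add_adjacent_intervals (a := 0) (b := 1) (c := R)
      (cM.intervalIntegrable _ _) (cM.intervalIntegrable _ _)]
    have : 0 ≤ ∫ r in (1 : ℝ)..R, r * J r ^ 2 :=
      intervalIntegral.integral_nonneg hR fun r hr => mul_nonneg (by linarith [hr.1]) (sq_nonneg _)
    linarith

end

end Pool.Agent.X103.Rw
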