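import Pool.Agent.X103.Rw.A
import Pool.Agent.X127.SW.QS
import Pool.Agent.X127.SW.Red

/-! # Correlations with a plane stationary wave: quantitative Rellich inequality -/

set_option autoImplicit false
open MeasureTheory Filter Topology Set
open scoped ContDiff ENNReal

namespace Pool.Agent.X103.Rw

open Pool.Agent.Y139.SW Pool.Agent.X127.SW

noncomputable section

/-- the point `r e^{2πit}` of the plane -/
def pt (r t : ℝ) : E 2 :=
  WithLp.toLp 2 ![r * Real.cos (2 * Real.pi * t), r * Real.sin (2 * Real.pi * t)]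

lemma pt_cont (r : ℝ) : Continuous (pt r) := by
  unfold pt
  refine (PiLp.continuous_toLp 2 _).comp (continuous_pi fun i => ?_)
  fin_cases i
  · show Continuous fun t => r * Real.cos (2 * Real.pi * t)
    fun_prop
  · show Continuous fun t => r * Real.sin (2 * Real.pi * t)
    fun_prop

lemma pt_inner {ξ : E 2} {β : ℝ} (h0 : ξ 0 = Real.cos β) (h1 : ξ 1 = Real.sin β) (r t : ℝ) :
    inner ℝ ξ (pt r t) = r * Real.cos (2 * Real.pi * t + -β) := by
  rw [← sub_eq_add_neg, Real.cos_sub, PiLp.inner_apply, Fin.sum_univ_two]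
  unfold pt
  simp only [Matrix.cons_val_zero, Matrix.cons_val_one, h0, h1]
  simp
  ring

lemma pt_cos (r : ℝ) (ξ : E 2) (h : ‖ξ‖ = 1) :
    ∫ t, Real.cos (inner ℝ ξ (pt r t)) ∂ui = J r := by
  obtain ⟨β, h0, h1⟩ := ex_beta h
  simp only [pt_inner h0 h1]
  have hf : Function.Periodic (fun x => Real.cos (r * Real.cos x)) (2 * Real.pi) :=
    fun x => by simp only [Real.cos_add_two_pi]
  have e1 := per_int (f := fun x => Real.cos (r * Real.cos x)) (by fun_prop) hf (-β)
  have e2 := per_int (f := fun x => Real.cos (r * Real.cos x)) (by fun_prop) hf 0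
  have e3 : J r = ∫ t, Real.cos (r * Real.cos (2 * Real.pi * t + 0)) ∂ui := by
    unfold J
    rw [ui_int]
    simp only [add_zero]
  rw [e3]
  exact e1.trans e2.symm

lemma pt_sin (r : ℝ) (ξ : E 2) (h : ‖ξ‖ = 1) :
    ∫ t, Real.sin (inner ℝ ξ (pt r t)) ∂ui = 0 := by
  obtain ⟨β, h0, h1⟩ := ex_beta h
  simp only [pt_inner h0 h1]
  have hf : Function.Periodic (fun x => Real.sin (r * Real.cos x)) (2 * Real.pi) :=
    fun x => by simp only [Real.cos_add_two_pi]
  rw [per_int (f := fun x => Real.sin (r * Real.cos x)) (by fun_prop) hf]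
  have e : ∀ x, Real.sin (r * Real.cos (x + Real.pi)) = -Real.sin (r * Real.cos x) := fun x => by
    rw [Real.cos_add_pi, mul_neg, Real.sin_neg]
  simp only [e]
  rw [intervalIntegral.integral_neg]
  ring

variable {S : Type*} [MeasurableSpace S] {P : Measure S}

/-- random fields with the mean value property of the Helmholtz equation and constant second
moment -/
structure MV (P : Measure S) (F : S → E 2 → ℝ) : Prop where
  meas : ∀ y, Measurable fun s => F s y
  cont : ∀ s, Continuous (F s)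
  l2 : ∀ y, Integrable (fun s => F s y ^ 2) P
  sq : ∀ y, ∫ s, F s y ^ 2 ∂P = ∫ s, F s 0 ^ 2 ∂P
  mv : ∀ r y, ∀ᵐ s ∂P, ∫ t, F s (pt r t + y) ∂ui = J r * F s y

/-- correlation with a square integrable random variable -/
def Cr (P : Measure S) (F : S → E 2 → ℝ) (Z : S → ℝ) (y : E 2) : ℝ := ∫ s, Z s * F s y ∂P

lemma jointF {F : S → E 2 → ℝ} (M : MV P F) : Measurable fun p : E 2 × S => F p.2 p.1 :=
  measurable_uncurry_of_continuous_of_measurable (u := fun y s => F s y) (fun s => M.cont s) M.meas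

lemma pathF {F : S → E 2 → ℝ} (M : MV P F) {a : ℝ → E 2} (ca : Continuous a) :
    Measurable fun p : S × ℝ => F p.1 (a p.2) :=
  (jointF M).comp ((ca.measurable.comp measurable_snd).prodMk measurable_fst)

/-- the mean value property of correlations -/
lemma mvD [IsProbabilityMeasure P] {F : S → E 2 → ℝ} (M : MV P F) {Z : S → ℝ}
    (mZ : Measurable Z) (iZ : Integrable (fun s => Z s ^ 2) P) (r : ℝ) (y : E 2) :
    ∫ t, Cr P F Z (pt r t + y) ∂ui = J r * Cr P F Z y := by
  have ca : Continuous fun t => pt r t + y := (pt_cont r).add continuous_const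
  have i1 : Integrable (fun p : S × ℝ => Z p.1 ^ 2) (P.prod ui) := iZ.comp_fst ui
  have i0 : Integrable (fun p : S × ℝ => F p.1 (pt r p.2 + y) ^ 2) (P.prod ui) := by
    rw [integrable_prod_iff' ((pathF M ca).pow_const 2).aestronglyMeasurable]
    refine ⟨ae_of_all _ fun t => M.l2 (pt r t + y), ?_⟩
    have : (fun t => ∫ s, ‖F s (pt r t + y) ^ 2‖ ∂P) = fun _ => ∫ s, F s 0 ^ 2 ∂P := by
      funext t
      rw [← M.sq (pt r t + y)]
      congr 1; funext s
      rw [Real.norm_eq_abs, abs_of_nonneg (sq_nonneg _)]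
    show Integrable (fun t => ∫ s, ‖F s (pt r t + y) ^ 2‖ ∂P) ui
    rw [this]
    exact integrable_const _
  have i2 : Integrable (fun p : S × ℝ => Z p.1 * F p.1 (pt r p.2 + y)) (P.prod ui) :=
    mul_l2 (mZ.comp measurable_fst) (pathF M ca) i1 i0
  have h2 : ∫ s, (∫ t, Z s * F s (pt r t + y) ∂ui) ∂P =
      ∫ t, (∫ s, Z s * F s (pt r t + y) ∂P) ∂ui := integral_integral_swap i2
  unfold Cr
  rw [← h2, ← integral_const_mul]
  refine integral_congr_ae ?_
  filter_upwards [M.mv r y] with s hs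
  rw [integral_const_mul, hs]
  ring

lemma Cr_meas {F : S → E 2 → ℝ} [SFinite P] (M : MV P F) {Z : S → ℝ} (mZ : Measurable Z) :
    Measurable (Cr P F Z) := by
  have m : Measurable fun p : E 2 × S => Z p.2 * F p.2 p.1 :=
    (mZ.comp measurable_snd).mul (jointF M)
  exact (m.stronglyMeasurable.integral_prod_right' (ν := P)).measurable

lemma Cr_bd {F : S → E 2 → ℝ} (M : MV P F) {Z : S → ℝ} (mZ : Measurable Z)
    (iZ : Integrable (fun s => Z s ^ 2) P) :
    ∃ K : ℝ, 0 ≤ K ∧ ∀ y, |Cr P F Z y| ≤ K := by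
  refine ⟨∫ s, Z s ^ 2 ∂P + ∫ s, F s 0 ^ 2 ∂P, by positivity, fun y => ?_⟩
  rw [← M.sq y, ← integral_add iZ (M.l2 y)]
  unfold Cr
  refine (abs_integral_le_integral_abs).trans (integral_mono (mul_l2 mZ (M.meas y) iZ
    (M.l2 y)).abs (iZ.add (M.l2 y)) fun s => ?_)
  show |Z s * F s y| ≤ Z s ^ 2 + F s y ^ 2
  rw [abs_mul, ← sq_abs (Z s), ← sq_abs (F s y)]
  nlinarith [sq_nonneg (|Z s| - |F s y|), sq_nonneg (|Z s|), sq_nonneg (|F s y|)]

/-- Jensen on the circle -/
lemma jensen {f : ℝ → ℝ} (mf : Measurable f) {K : ℝ} (bf : ∀ t, |f t| ≤ K) :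
    (∫ t, f t ∂ui) ^ 2 ≤ ∫ t, f t ^ 2 ∂ui := by
  have K0 : 0 ≤ K := (abs_nonneg _).trans (bf 0)
  have i1 : Integrable f ui := Integrable.mono' (integrable_const K) mf.aestronglyMeasurable
    (ae_of_all _ fun t => by rw [Real.norm_eq_abs]; exact bf t)
  have i2 : Integrable (fun t => f t ^ 2) ui :=
    Integrable.mono' (integrable_const (K ^ 2)) (mf.pow_const 2).aestronglyMeasurable
    (ae_of_all _ fun t => by
      rw [Real.norm_eq_abs, abs_of_nonneg (sq_nonneg _), ← sq_abs]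
      exact pow_le_pow_left₀ (abs_nonneg _) (bf t) 2)
  obtain ⟨m, hm⟩ : ∃ m, m = ∫ t, f t ∂ui := ⟨_, rfl⟩
  have h : 0 ≤ ∫ t, (f t - m) ^ 2 ∂ui := integral_nonneg fun t => sq_nonneg _
  have e : ∀ t, (f t - m) ^ 2 = f t ^ 2 - 2 * m * f t + m ^ 2 := fun t => by ring
  simp only [e] at h
  have e5 : ∫ t, (f t ^ 2 - 2 * m * f t + m ^ 2) ∂ui =
      ∫ t, f t ^ 2 ∂ui - 2 * m * ∫ t, f t ∂ui + m ^ 2 := by
    have j1 : Integrable (fun t => 2 * m * f t) ui := i1.const_mul _
    have j2 : Integrable (fun t => f t ^ 2 - 2 * m * f t) ui := i2.sub j1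
    rw [integral_add j2 (integrable_const _), integral_sub i2 j1, integral_const_mul,
      integral_const]
    simp only [smul_eq_mul, probReal_univ, one_mul]
  rw [e5, ← hm] at h
  rw [← hm]
  nlinarith

lemma pt_norm {r : ℝ} (hr : 0 ≤ r) (t : ℝ) : ‖pt r t‖ = r := by
  have h : ‖pt r t‖ ^ 2 = r ^ 2 := by
    rw [EuclideanSpace.norm_sq_eq, Fin.sum_univ_two]
    unfold pt
    simp only [Matrix.cons_val_zero, Matrix.cons_val_one, Real.norm_eq_abs, sq_abs]
    nlinarith [Real.sin_sq_add_cos_sq (2 * Real.pi * t)]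
  exact (sq_eq_sq₀ (norm_nonneg _) hr).1 h

lemma pt_per (r t : ℝ) : pt r (t + 1) = pt r t := by
  unfold pt
  have e : 2 * Real.pi * (t + 1) = 2 * Real.pi * t + 2 * Real.pi := by ring
  rw [e, Real.cos_add_two_pi, Real.sin_add_two_pi]

/-- coordinates of the plane -/
def Ph (p : ℝ × ℝ) : E 2 := WithLp.toLp 2 ![p.1, p.2]

lemma Ph_mp : MeasurePreserving Ph volume volume := by
  have h := (PiLp.volume_preserving_toLp (Fin 2)).comp
    (MeasureTheory.volume_preserving_finTwoArrow ℝ).symm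
  have e : (WithLp.toLp 2 : (Fin 2 → ℝ) → E 2) ∘ (MeasurableEquiv.finTwoArrow (α := ℝ)).symm =
      Ph := by
    funext p
    rfl
  rw [← e]
  exact h

lemma pt_joint : Continuous fun p : ℝ × ℝ => pt p.1 p.2 := by
  unfold pt
  refine (PiLp.continuous_toLp 2 _).comp (continuous_pi fun i => ?_)
  fin_cases i
  · show Continuous fun p : ℝ × ℝ => p.1 * Real.cos (2 * Real.pi * p.2)
    fun_prop
  · show Continuous fun p : ℝ × ℝ => p.1 * Real.sin (2 * Real.pi * p.2)
    fun_prop

/-- polar coordinates around `y` -/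
lemma polar {f : E 2 → ℝ} (mf : Measurable f) {K : ℝ} (bf : ∀ x, |f x| ≤ K) (y : E 2) {R : ℝ}
    (hR : 0 < R) : ∫ x in Metric.ball y R, f x =
      2 * Real.pi * ∫ r in (0 : ℝ)..R, r * ∫ t, f (pt r t + y) ∂ui := by
  have pp := Real.pi_pos
  have K0 : 0 ≤ K := (abs_nonneg _).trans (bf 0)
  obtain ⟨g, hg⟩ : ∃ g : E 2 → ℝ, g = (Metric.ball (0 : E 2) R).indicator fun x => f (x + y) :=
    ⟨_, rfl⟩
  have mg : Measurable g := by
    rw [hg]
    exact (mf.comp (measurable_id.add_const y)).indicator measurableSet_ball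
  have e1 : ∫ x in Metric.ball y R, f x = ∫ x, g x := by
    rw [← integral_indicator measurableSet_ball, ← integral_add_right_eq_self _ y, hg]
    congr 1; funext x
    simp only [indicator, Metric.mem_ball, dist_eq_norm, add_sub_cancel_right, sub_zero]
  have e2 : ∫ x, g x = ∫ p : ℝ × ℝ, g (Ph p) := by
    conv_lhs => rw [← Ph_mp.map_eq]
    exact integral_map Ph_mp.measurable.aemeasurable mg.aestronglyMeasurable
  have e3 := (integral_comp_polarCoord_symm fun p : ℝ × ℝ => g (Ph p))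
  have tgt : polarCoord.target = Ioi (0 : ℝ) ×ˢ Ioo (-Real.pi) Real.pi := rfl
  obtain ⟨h, hh⟩ : ∃ h : ℝ × ℝ → ℝ, h = fun p => p.1 * f (pt p.1 (p.2 / (2 * Real.pi)) + y) :=
    ⟨_, rfl⟩
  have val : ∀ p : ℝ × ℝ, 0 < p.1 → p.1 • g (Ph (polarCoord.symm p)) =
      if p.1 < R then h p else 0 := by
    intro p hp
    have e4 : Ph (polarCoord.symm p) = pt p.1 (p.2 / (2 * Real.pi)) := by
      rw [polarCoord_symm_apply]
      unfold Ph pt
      have : 2 * Real.pi * (p.2 / (2 * Real.pi)) = p.2 := by field_simp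
      rw [this]
    rw [e4, hg, hh]
    simp only [indicator, Metric.mem_ball, dist_zero_right, pt_norm hp.le, smul_eq_mul]
    split_ifs <;> simp
  have mh : Measurable h := by
    rw [hh]
    refine measurable_fst.mul (mf.comp (Measurable.add_const ?_ y))
    exact pt_joint.measurable.comp (measurable_fst.prodMk (measurable_snd.div_const _))
  have e5 : ∫ p in polarCoord.target, p.1 • g (Ph (polarCoord.symm p)) =
      ∫ p in Ioo (0 : ℝ) R ×ˢ Ioo (-Real.pi) Real.pi, h p := by
    rw [setIntegral_eq_of_subset_of_forall_sdiff_eq_zero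
      (s := Ioo (0 : ℝ) R ×ˢ Ioo (-Real.pi) Real.pi) polarCoord.open_target.measurableSet]
    · refine setIntegral_congr_fun (measurableSet_Ioo.prod measurableSet_Ioo) fun p hp => ?_
      show p.1 • g (Ph (polarCoord.symm p)) = h p
      rw [val p hp.1.1, if_pos hp.1.2]
    · intro p hp
      rw [tgt]
      exact ⟨hp.1.1, hp.2⟩
    · intro p hp
      have h1 : p ∈ Ioi (0 : ℝ) ×ˢ Ioo (-Real.pi) Real.pi := hp.1
      rw [val p h1.1, if_neg]
      intro h2
      exact hp.2 ⟨⟨h1.1, h2⟩, h1.2⟩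
  have ih : IntegrableOn h (Ioo (0 : ℝ) R ×ˢ Ioo (-Real.pi) Real.pi)
      ((volume : Measure ℝ).prod volume) := by
    refine Measure.integrableOn_of_bounded (M := R * K) ?_ mh.aestronglyMeasurable ?_
    · rw [Measure.prod_prod, Real.volume_Ioo, Real.volume_Ioo]
      exact ENNReal.mul_ne_top ENNReal.ofReal_ne_top ENNReal.ofReal_ne_top
    · refine (ae_restrict_iff' (measurableSet_Ioo.prod measurableSet_Ioo)).2
        (ae_of_all _ fun p hp => ?_)
      rw [hh, norm_mul, Real.norm_eq_abs, Real.norm_eq_abs, abs_of_pos hp.1.1]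
      exact mul_le_mul hp.1.2.le (bf _) (abs_nonneg _) hR.le
  rw [e1, e2, ← e3, e5]
  rw [show (volume : Measure (ℝ × ℝ)) = (volume : Measure ℝ).prod volume from rfl,
    setIntegral_prod _ ih, ← integral_Ioc_eq_integral_Ioo, ← intervalIntegral.integral_of_le hR.le,
    ← intervalIntegral.integral_const_mul]
  refine intervalIntegral.integral_congr fun r _ => ?_
  show ∫ θ in Ioo (-Real.pi) Real.pi, h (r, θ) = 2 * Real.pi * (r * ∫ t, f (pt r t + y) ∂ui)
  rw [← integral_Ioc_eq_integral_Ioo, ← intervalIntegral.integral_of_le (by linarith), hh]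
  show ∫ θ in (-Real.pi)..Real.pi, r * f (pt r (θ / (2 * Real.pi)) + y) = _
  rw [intervalIntegral.integral_const_mul, intervalIntegral.integral_comp_div
    (fun t => f (pt r t + y)) (by positivity)]
  have per : Function.Periodic (fun t => f (pt r t + y)) 1 := fun t => by
    show f (pt r (t + 1) + y) = _
    rw [pt_per]
  have e6 : -Real.pi / (2 * Real.pi) = -(1 / 2) := by field_simp
  have e7 : Real.pi / (2 * Real.pi) = -(1 / 2) + 1 := by field_simp; norm_num
  rw [e6, e7, per.intervalIntegral_add_eq (-(1 / 2)) 0, zero_add, ui_int, smul_eq_mul]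
  ring

/-- **Quantitative Rellich inequality for correlations.** -/
theorem rellich : ∃ C : ℝ, 0 < C ∧ ∀ {S : Type*} [MeasurableSpace S] {P : Measure S}
    [IsProbabilityMeasure P] {F : S → E 2 → ℝ} (_ : MV P F) {Z : S → ℝ} (_ : Measurable Z)
    (_ : Integrable (fun s => Z s ^ 2) P) (y : E 2) (R : ℝ), 1 ≤ R →
    Cr P F Z y ^ 2 ≤ C / R * ∫ x in Metric.ball y R, Cr P F Z x ^ 2 := by
  obtain ⟨c, c0, hc⟩ := J_ms
  have pp := Real.pi_pos
  refine ⟨1 / (2 * Real.pi * c), by positivity, ?_⟩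
  intro S _ P _ F W Z mZ iZ y R hR
  have R0 : 0 < R := by linarith
  obtain ⟨K, K0, hK⟩ := Cr_bd W mZ iZ
  have mC := Cr_meas (P := P) W mZ
  have bC : ∀ x, |Cr P F Z x ^ 2| ≤ K ^ 2 := fun x => by
    rw [abs_pow]
    exact pow_le_pow_left₀ (abs_nonneg _) (hK x) 2
  rw [polar (mC.pow_const 2) bC y R0]
  have mc : ∀ r, Measurable fun t => Cr P F Z (pt r t + y) := fun r =>
    mC.comp (((pt_cont r).measurable).add_const y)
  have pw : ∀ r ∈ Icc (0 : ℝ) R, r * J r ^ 2 * Cr P F Z y ^ 2 ≤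
      r * ∫ t, Cr P F Z (pt r t + y) ^ 2 ∂ui := by
    intro r hr
    have h1 := jensen (mc r) (K := K) fun t => hK _
    rw [mvD W mZ iZ r y] at h1
    rw [mul_assoc, ← mul_pow]
    exact mul_le_mul_of_nonneg_left h1 hr.1
  have cJ : Continuous fun r => r * J r ^ 2 * Cr P F Z y ^ 2 :=
    (continuous_id.mul (J_cont.pow 2)).mul continuous_const
  have iR : IntervalIntegrable (fun r => r * ∫ t, Cr P F Z (pt r t + y) ^ 2 ∂ui) volume 0 R := by
    have m1 : Measurable fun r => ∫ t, Cr P F Z (pt r t + y) ^ 2 ∂ui := by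
      have m2 : Measurable fun p : ℝ × ℝ => Cr P F Z (pt p.1 p.2 + y) ^ 2 :=
        (mC.comp (pt_joint.measurable.add_const y)).pow_const 2
      exact (m2.stronglyMeasurable.integral_prod_right' (ν := ui)).measurable
    rw [intervalIntegrable_iff_integrableOn_Ioc_of_le R0.le]
    refine Measure.integrableOn_of_bounded (M := R * K ^ 2) ?_
      (measurable_id.mul m1).aestronglyMeasurable ?_
    · rw [Real.volume_Ioc]; exact ENNReal.ofReal_ne_top
    · refine (ae_restrict_iff' measurableSet_Ioc).2 (ae_of_all _ fun r hr => ?_)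
      rw [norm_mul, Real.norm_eq_abs, Real.norm_eq_abs, abs_of_pos hr.1]
      refine mul_le_mul hr.2 ?_ (abs_nonneg _) R0.le
      refine (abs_integral_le_integral_abs).trans ?_
      refine (integral_mono_of_nonneg (ae_of_all _ fun t => abs_nonneg _)
        (integrable_const (K ^ 2)) (ae_of_all _ fun t => bC _)).trans ?_
      simp
  have h2 := intervalIntegral.integral_mono_on R0.le (cJ.intervalIntegrable _ _) iR pw
  rw [intervalIntegral.integral_mul_const] at h2
  have h3 : c * R * Cr P F Z y ^ 2 ≤ ∫ r in (0 : ℝ)..R, r * ∫ t, Cr P F Z (pt r t + y) ^ 2 ∂ui :=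
    (mul_le_mul_of_nonneg_right (hc R hR) (sq_nonneg _)).trans h2
  obtain ⟨I, hI⟩ : ∃ I, I = ∫ r in (0 : ℝ)..R, r * ∫ t, Cr P F Z (pt r t + y) ^ 2 ∂ui :=
    ⟨_, rfl⟩
  rw [← hI] at h3 ⊢
  have e : 1 / (2 * Real.pi * c) / R * (2 * Real.pi * I) = I / (c * R) := by
    field_simp
  rw [e, le_div_iff₀ (by positivity)]
  linarith

/-- translates of waves -/
lemma tr_wave {τ : E 2 → S → S} (hτ : ∀ x, MeasurePreserving (τ x) P P)
    {G : S → E 2 → ℝ} (W : Wave P τ G) (y : E 2) : Wave P τ (fun s z => G s (z + y)) := by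
  refine ⟨⟨fun z => W.sf.meas (z + y), fun s => (W.sf.smooth s).comp
    (contDiff_id.add contDiff_const), fun x s z => ?_⟩, fun s z => ?_, ?_⟩
  · show G (τ x s) (z + y) = G s (z + x + y)
    rw [W.sf.cov]
    congr 1
    abel
  · rw [Lap_tr (G s) y z, W.eq]
  · exact sqi hτ W (0 + y)

/-- waves have the mean value property -/
theorem mv_wave [IsProbabilityMeasure P] {τ : E 2 → S → S}
    (hτ : ∀ x, MeasurePreserving (τ x) P P) {G : S → E 2 → ℝ} (W : Wave P τ G) : MV P G := by
  refine ⟨W.sf.meas, fun s => (W.sf.smooth s).continuous, sqi hτ W, sqe hτ W, fun r y => ?_⟩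
  have h := mv hτ (pt_cont r) (tr_wave hτ W y) (κ := -J r)
    (fun ξ hξ => by rw [pt_cos r ξ hξ, neg_neg]) (fun ξ hξ => pt_sin r ξ hξ)
  filter_upwards [h] with s hs
  simp only [zero_add] at hs
  rw [hs]
  ring

end

end Pool.Agent.X103.Rw
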