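import Pool.Agent.X103.Rw.B
import Pool.Agent.X127.SW.Red

/-! # Dichotomy and Gaussian criterion -/

set_option autoImplicit false
open MeasureTheory Filter Topology Set
open scoped ContDiff ENNReal

namespace Pool.Agent.X103.Rw

open Pool.Agent.Y139.SW Pool.Agent.X127.SW

noncomputable section

variable {S : Type*} [MeasurableSpace S] {P : Measure S}

/-- **dichotomy** -/
theorem dich [IsProbabilityMeasure P] {F : S → E 2 → ℝ} (M : MV P F) {Z : S → ℝ}
    (mZ : Measurable Z) (iZ : Integrable (fun s => Z s ^ 2) P)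
    (h : ∀ ε : ℝ, 0 < ε → ∀ R₀ : ℝ, ∃ R, R₀ ≤ R ∧
      ∫ x in Metric.ball (0 : E 2) R, Cr P F Z x ^ 2 ≤ ε * R) (y : E 2) : Cr P F Z y = 0 := by
  obtain ⟨C, C0, hC⟩ := rellich
  obtain ⟨K, K0, hK⟩ := Cr_bd M mZ iZ
  have mC := Cr_meas (P := P) M mZ
  have key : ∀ ε : ℝ, 0 < ε → Cr P F Z y ^ 2 ≤ 2 * C * ε := by
    intro ε hε
    obtain ⟨R', hR', hI⟩ := h ε hε (2 * ‖y‖ + 2)
    have y0 := norm_nonneg y
    obtain ⟨R, hR⟩ : ∃ R, R = R' - ‖y‖ := ⟨_, rfl⟩
    have R1 : 1 ≤ R := by rw [hR]; linarith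
    have R0 : 0 < R := by linarith
    have R2 : R' ≤ 2 * R := by rw [hR]; linarith
    have sub : Metric.ball y R ⊆ Metric.ball (0 : E 2) R' := by
      refine Metric.ball_subset_ball' ?_
      rw [dist_zero_right, hR]; linarith
    have i1 : IntegrableOn (fun x => Cr P F Z x ^ 2) (Metric.ball (0 : E 2) R') := by
      refine Measure.integrableOn_of_bounded (M := K ^ 2) measure_ball_lt_top.ne
        (mC.pow_const 2).aestronglyMeasurable (ae_of_all _ fun x => ?_)
      rw [Real.norm_eq_abs, abs_pow]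
      exact pow_le_pow_left₀ (abs_nonneg _) (hK x) 2
    have h1 := hC M mZ iZ y R R1
    have h2 : ∫ x in Metric.ball y R, Cr P F Z x ^ 2 ≤ ε * R' :=
      (setIntegral_mono_set i1 (ae_of_all _ fun x => sq_nonneg _) sub.eventuallyLE).trans hI
    refine h1.trans ?_
    rw [div_mul_eq_mul_div, div_le_iff₀ R0]
    have h3 : ε * R' ≤ ε * (2 * R) := mul_le_mul_of_nonneg_left R2 hε.le
    nlinarith [mul_le_mul_of_nonneg_left (h2.trans h3) C0.le]
  have h0 : Cr P F Z y ^ 2 ≤ 0 := by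
    refine le_of_forall_pos_le_add fun ε hε => ?_
    have := key (ε / (2 * C)) (by positivity)
    have e : 2 * C * (ε / (2 * C)) = ε := by field_simp
    linarith
  exact pow_eq_zero_iff two_ne_zero |>.1 (le_antisymm h0 (sq_nonneg _))

/-- Stein's identities give the normal law -/
theorem stein_gauss [IsProbabilityMeasure P] {Z : S → ℝ} (mZ : Measurable Z)
    (iZ : Integrable (fun s => Z s ^ 2) P)
    (h1 : ∀ u : ℝ, ∫ s, Z s * Real.cos (u * Z s) ∂P =
      -(∫ s, Real.sin (u * Z s) ∂P) * (u * ∫ s, Z s ^ 2 ∂P))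
    (h2 : ∀ u : ℝ, ∫ s, Z s * Real.sin (u * Z s) ∂P =
      (∫ s, Real.cos (u * Z s) ∂P) * (u * ∫ s, Z s ^ 2 ∂P)) (u : ℝ) :
    ∫ s, Real.cos (u * Z s) ∂P = Real.exp (-(u ^ 2 * ∫ s, Z s ^ 2 ∂P) / 2) ∧
      ∫ s, Real.sin (u * Z s) ∂P = 0 := by
  obtain ⟨V, hV⟩ : ∃ V, V = ∫ s, Z s ^ 2 ∂P := ⟨_, rfl⟩
  rw [← hV]
  simp only [← hV] at h1 h2
  have iZ1 : Integrable Z P := l2_l1 mZ iZ
  have b1 : ∀ f : S → ℝ, Measurable f → (∀ s, |f s| ≤ 1) → Integrable f P := fun f mf hf =>
    Integrable.mono' (integrable_const (1 : ℝ)) mf.aestronglyMeasurable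
      (ae_of_all _ fun s => by rw [Real.norm_eq_abs]; exact hf s)
  have mc : ∀ u : ℝ, Measurable fun s => Real.cos (u * Z s) := fun u =>
    Real.measurable_cos.comp (mZ.const_mul u)
  have ms : ∀ u : ℝ, Measurable fun s => Real.sin (u * Z s) := fun u =>
    Real.measurable_sin.comp (mZ.const_mul u)
  have da : ∀ u : ℝ, HasDerivAt (fun u => ∫ s, Real.cos (u * Z s) ∂P)
      (-(u * V) * ∫ s, Real.cos (u * Z s) ∂P) u := by
    intro u
    have h := hasDerivAt_integral_of_dominated_loc_of_deriv_le (μ := P)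
      (F := fun u s => Real.cos (u * Z s)) (F' := fun u s => -(Z s * Real.sin (u * Z s)))
      (x₀ := u) (s := Set.univ) (bound := fun s => |Z s|) Filter.univ_mem
      (Eventually.of_forall fun x => (mc x).aestronglyMeasurable)
      (b1 _ (mc u) fun s => Real.abs_cos_le_one _)
      (mZ.mul (ms u)).neg.aestronglyMeasurable
      (ae_of_all _ fun s x _ => by
        rw [norm_neg, norm_mul, Real.norm_eq_abs, Real.norm_eq_abs]
        exact mul_le_of_le_one_right (abs_nonneg _) (Real.abs_sin_le_one _))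
      iZ1.abs
      (ae_of_all _ fun s x _ => by
        have h1 := ((hasDerivAt_id x).mul_const (Z s)).cos
        refine h1.congr_deriv ?_
        simp only [id_eq]; ring)
    refine h.2.congr_deriv ?_
    rw [integral_neg, h2]
    ring
  have db : ∀ u : ℝ, HasDerivAt (fun u => ∫ s, Real.sin (u * Z s) ∂P)
      (-(u * V) * ∫ s, Real.sin (u * Z s) ∂P) u := by
    intro u
    have h := hasDerivAt_integral_of_dominated_loc_of_deriv_le (μ := P)
      (F := fun u s => Real.sin (u * Z s)) (F' := fun u s => Z s * Real.cos (u * Z s))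
      (x₀ := u) (s := Set.univ) (bound := fun s => |Z s|) Filter.univ_mem
      (Eventually.of_forall fun x => (ms x).aestronglyMeasurable)
      (b1 _ (ms u) fun s => Real.abs_sin_le_one _)
      (mZ.mul (mc u)).aestronglyMeasurable
      (ae_of_all _ fun s x _ => by
        rw [norm_mul, Real.norm_eq_abs, Real.norm_eq_abs]
        exact mul_le_of_le_one_right (abs_nonneg _) (Real.abs_cos_le_one _))
      iZ1.abs
      (ae_of_all _ fun s x _ => by
        have h1 := ((hasDerivAt_id x).mul_const (Z s)).sin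
        refine h1.congr_deriv ?_
        simp only [id_eq]; ring)
    refine h.2.congr_deriv ?_
    rw [h1]
    ring
  -- integrating factor
  have fac : ∀ {a : ℝ → ℝ}, (∀ u, HasDerivAt a (-(u * V) * a u) u) → ∀ u,
      a u = a 0 * Real.exp (-(u ^ 2 * V) / 2) := by
    intro a ha u
    have dE : ∀ u : ℝ, HasDerivAt (fun u => a u * Real.exp (u ^ 2 * V / 2)) 0 u := by
      intro u
      have h3 : HasDerivAt (fun u : ℝ => u ^ 2 * V / 2) (u * V) u := by
        have := (((hasDerivAt_id u).pow 2).mul_const V).div_const 2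
        refine this.congr_deriv ?_
        simp only [id_eq]; norm_num; ring
      refine ((ha u).mul h3.exp).congr_deriv ?_
      ring
    have h4 := is_const_of_deriv_eq_zero (fun u => (dE u).differentiableAt)
      (fun u => (dE u).deriv) u 0
    simp only [ne_eq, OfNat.ofNat_ne_zero, not_false_eq_true, zero_pow, zero_mul, zero_div,
      Real.exp_zero, mul_one] at h4
    rw [← h4, mul_assoc, ← Real.exp_add]
    have : u ^ 2 * V / 2 + -(u ^ 2 * V) / 2 = 0 := by ring
    rw [this, Real.exp_zero, mul_one]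
  refine ⟨?_, ?_⟩
  · rw [fac da u]
    simp
  · have := fac db u
    simpa using this

/-- linear statistics of the field -/
def Ln (F : S → E 2 → ℝ) {n : ℕ} (x : Fin n → E 2) (t : Fin n → ℝ) (s : S) : ℝ :=
  ∑ j, t j * F s (x j)

lemma Ln_meas {F : S → E 2 → ℝ} (M : MV P F) {n : ℕ} (x : Fin n → E 2) (t : Fin n → ℝ) :
    Measurable (Ln F x t) := by
  unfold Ln
  exact Finset.measurable_sum _ fun j _ => (M.meas (x j)).const_mul (t j)

lemma Ln_l2 {F : S → E 2 → ℝ} (M : MV P F) {n : ℕ} (x : Fin n → E 2) (t : Fin n → ℝ) :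
    Integrable (fun s => Ln F x t s ^ 2) P := by
  have i1 : Integrable (fun s => (∑ j, t j ^ 2) * ∑ j, F s (x j) ^ 2) P :=
    (integrable_finsetSum _ fun j _ => M.l2 (x j)).const_mul _
  refine Integrable.mono' i1 ((Ln_meas M x t).pow_const 2).aestronglyMeasurable
    (ae_of_all _ fun s => ?_)
  rw [Real.norm_eq_abs, abs_of_nonneg (sq_nonneg _)]
  exact Finset.sum_mul_sq_le_sq_mul_sq _ _ _

/-- the defects of Gaussian integration by parts, as functions of the point -/
def Dc (P : Measure S) (F : S → E 2 → ℝ) (Z : S → ℝ) (y : E 2) : ℝ :=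
  ∫ s, F s y * Real.cos (Z s) ∂P + (∫ s, Real.sin (Z s) ∂P) * ∫ s, F s y * Z s ∂P

/-- the defects of Gaussian integration by parts, as functions of the point -/
def Ds (P : Measure S) (F : S → E 2 → ℝ) (Z : S → ℝ) (y : E 2) : ℝ :=
  ∫ s, F s y * Real.sin (Z s) ∂P - (∫ s, Real.cos (Z s) ∂P) * ∫ s, F s y * Z s ∂P

lemma bdi [IsProbabilityMeasure P] {f : S → ℝ} (mf : Measurable f) (hf : ∀ s, |f s| ≤ 1) :
    Integrable (fun s => f s ^ 2) P :=
  Integrable.mono' (integrable_const (1 : ℝ)) (mf.pow_const 2).aestronglyMeasurable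
    (ae_of_all _ fun s => by
      rw [Real.norm_eq_abs, abs_pow]
      exact pow_le_one₀ (abs_nonneg _) (hf s))

lemma sq_add {a b : S → ℝ} (ma : Measurable a) (mb : Measurable b)
    (ia : Integrable (fun s => a s ^ 2) P) (ib : Integrable (fun s => b s ^ 2) P) (c : ℝ) :
    Integrable (fun s => (a s + c * b s) ^ 2) P := by
  have e : ∀ s, (a s + c * b s) ^ 2 = a s ^ 2 + 2 * c * (a s * b s) + c ^ 2 * b s ^ 2 :=
    fun s => by ring
  simp only [e]
  exact (ia.add ((mul_l2 ma mb ia ib).const_mul _)).add (ib.const_mul _)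

/-- a defect is a correlation -/
lemma cr_lin [IsProbabilityMeasure P] {F : S → E 2 → ℝ} (M : MV P F) {a Z : S → ℝ}
    (ma : Measurable a) (mZ : Measurable Z) (ia : Integrable (fun s => a s ^ 2) P)
    (iZ : Integrable (fun s => Z s ^ 2) P) (c : ℝ) (y : E 2) :
    Cr P F (fun s => a s + c * Z s) y = ∫ s, F s y * a s ∂P + c * ∫ s, F s y * Z s ∂P := by
  unfold Cr
  have e : ∀ s, (a s + c * Z s) * F s y = F s y * a s + c * (F s y * Z s) := fun s => by ring
  simp only [e]
  rw [integral_add (mul_l2 (M.meas y) ma (M.l2 y) ia)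
    ((mul_l2 (M.meas y) mZ (M.l2 y) iZ).const_mul c), integral_const_mul]

/-- **asymptotic Gaussian criterion** -/
theorem gauss [IsProbabilityMeasure P] {F : S → E 2 → ℝ} (M : MV P F) {n : ℕ}
    (x : Fin n → E 2) (t : Fin n → ℝ)
    (h : ∀ u ε : ℝ, 0 < ε → ∀ R₀ : ℝ, ∃ R, R₀ ≤ R ∧
      ∫ y in Metric.ball (0 : E 2) R,
        (Dc P F (fun s => u * Ln F x t s) y ^ 2 + Ds P F (fun s => u * Ln F x t s) y ^ 2) ≤ ε * R)
    (u : ℝ) :
    ∫ s, Real.cos (u * Ln F x t s) ∂P = Real.exp (-(u ^ 2 * ∫ s, Ln F x t s ^ 2 ∂P) / 2) ∧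
      ∫ s, Real.sin (u * Ln F x t s) ∂P = 0 := by
  have mZ := Ln_meas M x t
  have iZ := Ln_l2 M x t
  obtain ⟨Z, hZ⟩ : ∃ Z, Z = Ln F x t := ⟨_, rfl⟩
  rw [← hZ] at mZ iZ ⊢
  have mu : ∀ u : ℝ, Measurable fun s => u * Z s := fun u => mZ.const_mul u
  have iu : ∀ u : ℝ, Integrable (fun s => (u * Z s) ^ 2) P := fun u => by
    simp only [mul_pow]; exact iZ.const_mul _
  have mc : ∀ u : ℝ, Measurable fun s => Real.cos (u * Z s) := fun u =>
    Real.measurable_cos.comp (mu u)
  have ms : ∀ u : ℝ, Measurable fun s => Real.sin (u * Z s) := fun u =>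
    Real.measurable_sin.comp (mu u)
  have ic : ∀ u : ℝ, Integrable (fun s => Real.cos (u * Z s) ^ 2) P := fun u =>
    bdi (mc u) fun s => Real.abs_cos_le_one _
  have is : ∀ u : ℝ, Integrable (fun s => Real.sin (u * Z s) ^ 2) P := fun u =>
    bdi (ms u) fun s => Real.abs_sin_le_one _
  -- the defects as correlations
  have eDc : ∀ u y, Dc P F (fun s => u * Z s) y = Cr P F (fun s => Real.cos (u * Z s) +
      (∫ s, Real.sin (u * Z s) ∂P) * (u * Z s)) y := fun u y =>
    (cr_lin M (mc u) (mu u) (ic u) (iu u) _ y).symm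
  have eDs : ∀ u y, Ds P F (fun s => u * Z s) y = Cr P F (fun s => Real.sin (u * Z s) +
      (-(∫ s, Real.cos (u * Z s) ∂P)) * (u * Z s)) y := fun u y => by
    rw [cr_lin M (ms u) (mu u) (is u) (iu u) _ y]
    unfold Ds
    ring
  have mDc : ∀ u : ℝ, Measurable fun s => Real.cos (u * Z s) +
      (∫ s, Real.sin (u * Z s) ∂P) * (u * Z s) := fun u => (mc u).add ((mu u).const_mul _)
  have mDs : ∀ u : ℝ, Measurable fun s => Real.sin (u * Z s) +
      (-(∫ s, Real.cos (u * Z s) ∂P)) * (u * Z s) := fun u => (ms u).add ((mu u).const_mul _)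
  have iDc : ∀ u : ℝ, Integrable (fun s => (Real.cos (u * Z s) +
      (∫ s, Real.sin (u * Z s) ∂P) * (u * Z s)) ^ 2) P := fun u =>
    sq_add (mc u) (mu u) (ic u) (iu u) _
  have iDs : ∀ u : ℝ, Integrable (fun s => (Real.sin (u * Z s) +
      (-(∫ s, Real.cos (u * Z s) ∂P)) * (u * Z s)) ^ 2) P := fun u =>
    sq_add (ms u) (mu u) (is u) (iu u) _
  have intg : ∀ {Y : S → ℝ}, Measurable Y → Integrable (fun s => Y s ^ 2) P → ∀ R : ℝ,
      IntegrableOn (fun y => Cr P F Y y ^ 2) (Metric.ball (0 : E 2) R) := by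
    intro Y mY iY R
    obtain ⟨K, K0, hK⟩ := Cr_bd M mY iY
    refine Measure.integrableOn_of_bounded (M := K ^ 2) measure_ball_lt_top.ne
      ((Cr_meas (P := P) M mY).pow_const 2).aestronglyMeasurable (ae_of_all _ fun x => ?_)
    rw [Real.norm_eq_abs, abs_pow]
    exact pow_le_pow_left₀ (abs_nonneg _) (hK x) 2
  rw [← hZ] at h
  simp only [eDc, eDs] at h
  have z1 : ∀ u y, Cr P F (fun s => Real.cos (u * Z s) +
      (∫ s, Real.sin (u * Z s) ∂P) * (u * Z s)) y = 0 := by
    intro u y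
    refine dich M (mDc u) (iDc u) (fun ε hε R₀ => ?_) y
    obtain ⟨R, hR, hI⟩ := h u ε hε R₀
    refine ⟨R, hR, le_trans (integral_mono (intg (mDc u) (iDc u) R)
      ((intg (mDc u) (iDc u) R).add (intg (mDs u) (iDs u) R)) fun y => ?_) hI⟩
    exact le_add_of_nonneg_right (sq_nonneg _)
  have z2 : ∀ u y, Cr P F (fun s => Real.sin (u * Z s) +
      (-(∫ s, Real.cos (u * Z s) ∂P)) * (u * Z s)) y = 0 := by
    intro u y
    refine dich M (mDs u) (iDs u) (fun ε hε R₀ => ?_) y
    obtain ⟨R, hR, hI⟩ := h u ε hε R₀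
    refine ⟨R, hR, le_trans (integral_mono (intg (mDs u) (iDs u) R)
      ((intg (mDc u) (iDc u) R).add (intg (mDs u) (iDs u) R)) fun y => ?_) hI⟩
    exact le_add_of_nonneg_left (sq_nonneg _)
  -- sum over the points
  have sumI : ∀ {a : S → ℝ}, Measurable a → Integrable (fun s => a s ^ 2) P →
      ∑ j, t j * ∫ s, F s (x j) * a s ∂P = ∫ s, Z s * a s ∂P := by
    intro a ma ia
    have e : ∀ s, Z s * a s = ∑ j, t j * (F s (x j) * a s) := fun s => by
      rw [hZ]; unfold Ln
      rw [Finset.sum_mul]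
      exact Finset.sum_congr rfl fun j _ => by ring
    simp only [e]
    rw [integral_finsetSum _ fun j _ => (mul_l2 (M.meas (x j)) ma (M.l2 _) ia).const_mul _]
    exact Finset.sum_congr rfl fun j _ => (integral_const_mul _ _).symm
  have V1 : ∀ u : ℝ, ∫ s, Z s * (u * Z s) ∂P = u * ∫ s, Z s ^ 2 ∂P := fun u => by
    rw [← integral_const_mul]
    congr 1; funext s; ring
  have key : ∀ {a : S → ℝ} {c u : ℝ}, Measurable a → Integrable (fun s => a s ^ 2) P →
      (∀ y, Cr P F (fun s => a s + c * (u * Z s)) y = 0) →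
      ∫ s, Z s * a s ∂P + c * (u * ∫ s, Z s ^ 2 ∂P) = 0 := by
    intro a c u ma ia hz
    rw [← V1 u, ← sumI ma ia, ← sumI (mu u) (iu u), Finset.mul_sum, ← Finset.sum_add_distrib]
    refine Finset.sum_eq_zero fun j _ => ?_
    have := hz (x j)
    rw [cr_lin M ma (mu u) ia (iu u)] at this
    have e : t j * ∫ s, F s (x j) * a s ∂P + c * (t j * ∫ s, F s (x j) * (u * Z s) ∂P) =
        t j * (∫ s, F s (x j) * a s ∂P + c * ∫ s, F s (x j) * (u * Z s) ∂P) := by ring
    rw [e, this, mul_zero]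
  exact stein_gauss mZ iZ (fun u => by
      have := key (mc u) (ic u) (z1 u)
      linarith) (fun u => by
      have := key (ms u) (is u) (z2 u)
      linarith) u

end

end Pool.Agent.X103.Rw
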