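import Pool.Agent.X103.Rw.C

/-! # Converse of the criterion, and linear regression for isotropic fields -/

set_option autoImplicit false
open MeasureTheory Filter Topology Set
open scoped ContDiff ENNReal

namespace Pool.Agent.X103.Rw

open Pool.Agent.Y139.SW Pool.Agent.X127.SW

noncomputable section

variable {S : Type*} [MeasurableSpace S] {P : Measure S}

/-- Gaussian in the sense of characteristic functions -/
def IsG (P : Measure S) (F : S → E 2 → ℝ) : Prop :=
  ∀ (n : ℕ) (x : Fin n → E 2) (t : Fin n → ℝ),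
    ∫ s, Real.cos (Ln F x t s) ∂P = Real.exp (-(∫ s, Ln F x t s ^ 2 ∂P) / 2) ∧
      ∫ s, Real.sin (Ln F x t s) ∂P = 0

omit [MeasurableSpace S] in
lemma Ln_cons (F : S → E 2 → ℝ) {n : ℕ} (x : Fin n → E 2) (t : Fin n → ℝ) (y : E 2) (u : ℝ)
    (s : S) : Ln F (Fin.cons y x : Fin (n + 1) → E 2) (Fin.cons u t : Fin (n + 1) → ℝ) s =
      u * F s y + Ln F x t s := by
  unfold Ln
  rw [Fin.sum_univ_succ]
  simp only [Fin.cons_zero, Fin.cons_succ]

omit [MeasurableSpace S] in
lemma Ln_mul (F : S → E 2 → ℝ) {n : ℕ} (x : Fin n → E 2) (t : Fin n → ℝ) (u : ℝ) :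
    (fun s => u * Ln F x t s) = Ln F x (fun j => u * t j) := by
  funext s
  unfold Ln
  rw [Finset.mul_sum]
  exact Finset.sum_congr rfl fun j _ => by ring

/-- Gaussian fields have no defect -/
theorem conv [IsProbabilityMeasure P] {F : S → E 2 → ℝ} (M : MV P F) (hG : IsG P F) {n : ℕ}
    (x : Fin n → E 2) (t : Fin n → ℝ) (y : E 2) :
    Dc P F (Ln F x t) y = 0 ∧ Ds P F (Ln F x t) y = 0 := by
  obtain ⟨Z, hZ⟩ : ∃ Z, Z = Ln F x t := ⟨_, rfl⟩
  have mZ : Measurable Z := by rw [hZ]; exact Ln_meas M x t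
  have iZ : Integrable (fun s => Z s ^ 2) P := by rw [hZ]; exact Ln_l2 M x t
  obtain ⟨Y, hY⟩ : ∃ Y : S → ℝ, Y = fun s => F s y := ⟨_, rfl⟩
  have mY : Measurable Y := by rw [hY]; exact M.meas y
  have iY : Integrable (fun s => Y s ^ 2) P := by rw [hY]; exact M.l2 y
  have iY1 : Integrable Y P := l2_l1 mY iY
  have iYZ : Integrable (fun s => Y s * Z s) P := mul_l2 mY mZ iY iZ
  have ml : ∀ u : ℝ, Measurable fun s => u * Y s + Z s := fun u => (mY.const_mul u).add mZ
  have g1 : ∀ u : ℝ, ∫ s, Real.cos (u * Y s + Z s) ∂P =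
      Real.exp (-(u ^ 2 * ∫ s, Y s ^ 2 ∂P + 2 * u * ∫ s, Y s * Z s ∂P + ∫ s, Z s ^ 2 ∂P) / 2) := by
    intro u
    have h := (hG (n + 1) (Fin.cons y x) (Fin.cons u t)).1
    simp only [Ln_cons, ← hZ] at h
    have e : ∀ s, (u * F s y + Z s) ^ 2 = u ^ 2 * Y s ^ 2 + 2 * u * (Y s * Z s) + Z s ^ 2 :=
      fun s => by rw [hY]; ring
    have e2 : ∫ s, (u * F s y + Z s) ^ 2 ∂P =
        u ^ 2 * ∫ s, Y s ^ 2 ∂P + 2 * u * ∫ s, Y s * Z s ∂P + ∫ s, Z s ^ 2 ∂P := by
      simp only [e]
      have j1 : Integrable (fun s => u ^ 2 * Y s ^ 2) P := iY.const_mul _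
      have j2 : Integrable (fun s => 2 * u * (Y s * Z s)) P := iYZ.const_mul _
      have j3 : Integrable (fun s => u ^ 2 * Y s ^ 2 + 2 * u * (Y s * Z s)) P := j1.add j2
      rw [integral_add j3 iZ, integral_add j1 j2, integral_const_mul, integral_const_mul]
    rw [e2] at h
    rw [← h, hY]
  have g2 : ∀ u : ℝ, ∫ s, Real.sin (u * Y s + Z s) ∂P = 0 := by
    intro u
    have h := (hG (n + 1) (Fin.cons y x) (Fin.cons u t)).2
    simp only [Ln_cons, ← hZ] at h
    rw [hY]
    exact h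
  have b1 : ∀ f : S → ℝ, Measurable f → (∀ s, |f s| ≤ 1) → Integrable f P := fun f mf hf =>
    Integrable.mono' (integrable_const (1 : ℝ)) mf.aestronglyMeasurable
      (ae_of_all _ fun s => by rw [Real.norm_eq_abs]; exact hf s)
  have da : HasDerivAt (fun u : ℝ => ∫ s, Real.cos (u * Y s + Z s) ∂P)
      (∫ s, -(Y s * Real.sin (0 * Y s + Z s)) ∂P) 0 :=
    (hasDerivAt_integral_of_dominated_loc_of_deriv_le (μ := P)
      (F := fun u s => Real.cos (u * Y s + Z s))
      (F' := fun u s => -(Y s * Real.sin (u * Y s + Z s)))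
      (x₀ := (0 : ℝ)) (s := Set.univ) (bound := fun s => |Y s|) Filter.univ_mem
      (Eventually.of_forall fun v => (Real.measurable_cos.comp (ml v)).aestronglyMeasurable)
      (b1 _ (Real.measurable_cos.comp (ml 0)) fun s => Real.abs_cos_le_one _)
      (mY.mul (Real.measurable_sin.comp (ml 0))).neg.aestronglyMeasurable
      (ae_of_all _ fun s v _ => by
        rw [norm_neg, norm_mul, Real.norm_eq_abs, Real.norm_eq_abs]
        exact mul_le_of_le_one_right (abs_nonneg _) (Real.abs_sin_le_one _))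
      iY1.abs
      (ae_of_all _ fun s v _ => by
        have h1 := (((hasDerivAt_id v).mul_const (Y s)).add_const (Z s)).cos
        refine h1.congr_deriv ?_
        simp only [id_eq]; ring)).2
  have db : HasDerivAt (fun u : ℝ => ∫ s, Real.sin (u * Y s + Z s) ∂P)
      (∫ s, Y s * Real.cos (0 * Y s + Z s) ∂P) 0 :=
    (hasDerivAt_integral_of_dominated_loc_of_deriv_le (μ := P)
      (F := fun u s => Real.sin (u * Y s + Z s))
      (F' := fun u s => Y s * Real.cos (u * Y s + Z s))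
      (x₀ := (0 : ℝ)) (s := Set.univ) (bound := fun s => |Y s|) Filter.univ_mem
      (Eventually.of_forall fun v => (Real.measurable_sin.comp (ml v)).aestronglyMeasurable)
      (b1 _ (Real.measurable_sin.comp (ml 0)) fun s => Real.abs_sin_le_one _)
      (mY.mul (Real.measurable_cos.comp (ml 0))).aestronglyMeasurable
      (ae_of_all _ fun s v _ => by
        rw [norm_mul, Real.norm_eq_abs, Real.norm_eq_abs]
        exact mul_le_of_le_one_right (abs_nonneg _) (Real.abs_cos_le_one _))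
      iY1.abs
      (ae_of_all _ fun s v _ => by
        have h1 := (((hasDerivAt_id v).mul_const (Y s)).add_const (Z s)).sin
        refine h1.congr_deriv ?_
        simp only [id_eq]; ring)).2
  simp only [zero_mul, zero_add] at da db
  simp only [g1] at da
  simp only [g2] at db
  have z0 := hG n x t
  rw [← hZ] at z0
  have dE : HasDerivAt (fun u : ℝ => Real.exp (-(u ^ 2 * ∫ s, Y s ^ 2 ∂P +
      2 * u * ∫ s, Y s * Z s ∂P + ∫ s, Z s ^ 2 ∂P) / 2))
      (-(∫ s, Y s * Z s ∂P) * Real.exp (-(∫ s, Z s ^ 2 ∂P) / 2)) 0 := by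
    obtain ⟨a, ha⟩ : ∃ a, a = ∫ s, Y s ^ 2 ∂P := ⟨_, rfl⟩
    obtain ⟨b, hb⟩ : ∃ b, b = ∫ s, Y s * Z s ∂P := ⟨_, rfl⟩
    obtain ⟨c, hc⟩ : ∃ c, c = ∫ s, Z s ^ 2 ∂P := ⟨_, rfl⟩
    rw [← ha, ← hb, ← hc]
    have h3 : HasDerivAt (fun u : ℝ => -(u ^ 2 * a + 2 * u * b + c) / 2) (-b) 0 := by
      have h4 := ((((((hasDerivAt_id (0 : ℝ)).pow 2).mul_const a).add
        (((hasDerivAt_id (0 : ℝ)).const_mul 2).mul_const b)).add_const c).neg).div_const 2
      refine h4.congr_deriv ?_
      simp only [id_eq]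
      ring
    have h5 := h3.exp
    refine h5.congr_deriv ?_
    simp
    ring
  have r1 := da.unique dE
  have r2 := db.unique (hasDerivAt_const (0 : ℝ) (0 : ℝ))
  rw [integral_neg] at r1
  rw [← hZ]
  unfold Dc Ds
  have hY' : ∀ s, F s y = Y s := fun s => by rw [hY]
  simp only [hY']
  rw [z0.1, z0.2, r2]
  refine ⟨by ring, by linarith⟩

/-- **linear regression for isotropic fields** -/
theorem iso_reg [IsProbabilityMeasure P] {F : S → E 2 → ℝ} (M : MV P F)
    (hrot : ∀ ρ : E 2 ≃ₗᵢ[ℝ] E 2, P.map (fun s y => F s (ρ y)) = P.map (fun s y => F s y))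
    {Φ : ℝ → ℝ} (mΦ : Measurable Φ) (iΦ : Integrable (fun s => Φ (F s 0) ^ 2) P) (x : E 2) :
    ∫ s, Φ (F s 0) * F s x ∂P = J ‖x‖ * ∫ s, Φ (F s 0) * F s 0 ∂P := by
  have mZ : Measurable fun s => Φ (F s 0) := mΦ.comp (M.meas 0)
  have inv : ∀ ρ : E 2 ≃ₗᵢ[ℝ] E 2, Cr P F (fun s => Φ (F s 0)) (ρ x) =
      Cr P F (fun s => Φ (F s 0)) x := by
    intro ρ
    have mk : Measurable fun f : E 2 → ℝ => Φ (f 0) * f x :=
      (mΦ.comp (measurable_pi_apply 0)).mul (measurable_pi_apply x)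
    have m1 : Measurable fun (s : S) (y : E 2) => F s (ρ y) :=
      measurable_pi_iff.2 fun y => M.meas (ρ y)
    have m2 : Measurable fun (s : S) (y : E 2) => F s y := measurable_pi_iff.2 fun y => M.meas y
    have h1 := integral_map (μ := P) m1.aemeasurable (f := fun f : E 2 → ℝ => Φ (f 0) * f x)
      mk.aestronglyMeasurable
    have h2 := integral_map (μ := P) m2.aemeasurable (f := fun f : E 2 → ℝ => Φ (f 0) * f x)
      mk.aestronglyMeasurable
    rw [hrot ρ, h2] at h1
    simp only [map_zero] at h1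
    exact h1.symm
  have all : ∀ t, Cr P F (fun s => Φ (F s 0)) (pt ‖x‖ t + 0) =
      Cr P F (fun s => Φ (F s 0)) x := by
    intro t
    rw [add_zero]
    have hn : ‖x‖ = ‖pt ‖x‖ t‖ := (pt_norm (norm_nonneg x) t).symm
    have hr := Submodule.reflection_sub hn
    rw [← inv ((Submodule.span ℝ {x - pt ‖x‖ t})ᗮ.reflection), hr]
  have h := mvD M mZ iΦ ‖x‖ 0
  simp only [all] at h
  rw [integral_const] at h
  simp only [smul_eq_mul, probReal_univ, one_mul] at h
  exact h

/-- transfer from the canonical space -/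
theorem mv_field [IsProbabilityMeasure P] {F : S → E 2 → ℝ} (mF : ∀ y, Measurable fun s => F s y)
    (sF : ∀ s, ContDiff ℝ ∞ (F s)) (eF : ∀ s y, Lap (F s) y + F s y = 0)
    (st : ∀ x : E 2, P.map (fun s y => F s (y + x)) = P.map (fun s y => F s y))
    (l2 : Integrable (fun s => F s 0 ^ 2) P) : MV P F := by
  obtain ⟨Ψ, mΨ, v1, hQ, hτ, W⟩ := red (P := P) mF sF eF st l2
  have M := mv_wave hτ W
  refine ⟨mF, fun s => (sF s).continuous, fun y => ?_, fun y => ?_, fun r y => ?_⟩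
  · have h := (integrable_map_measure ((M.meas y).pow_const 2).aestronglyMeasurable
      mΨ.aemeasurable).1 (M.l2 y)
    refine h.congr (ae_of_all _ fun s => ?_)
    show (Ψ s).1 y ^ 2 = F s y ^ 2
    rw [v1]
  · have h := M.sq y
    rw [integral_map mΨ.aemeasurable ((M.meas y).pow_const 2).aestronglyMeasurable,
      integral_map mΨ.aemeasurable ((M.meas 0).pow_const 2).aestronglyMeasurable] at h
    simp only [v1] at h
    exact h
  · have h := ae_of_ae_map mΨ.aemeasurable (M.mv r y)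
    filter_upwards [h] with s hs
    simp only [v1] at hs
    exact hs

end

end Pool.Agent.X103.Rw
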