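import Pool.Agent.X103.Rw.D

/-! # The criterion with the random wave model covariance -/

set_option autoImplicit false
open MeasureTheory Filter Topology Set
open scoped ContDiff ENNReal

namespace Pool.Agent.X103.Rw

open Pool.Agent.Y139.SW Pool.Agent.X127.SW

noncomputable section

/-- bounded measurable functions with the mean value property -/
structure Mvp (D : E 2 → ℝ) : Prop where
  meas : Measurable D
  bd : ∃ K : ℝ, 0 ≤ K ∧ ∀ y, |D y| ≤ K
  mv : ∀ r y, ∫ t, D (pt r t + y) ∂ui = J r * D y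

/-- **Quantitative Rellich inequality.** -/
theorem rellich2 : ∃ C : ℝ, 0 < C ∧ ∀ {D : E 2 → ℝ} (_ : Mvp D) (y : E 2) (R : ℝ), 1 ≤ R →
    D y ^ 2 ≤ C / R * ∫ x in Metric.ball y R, D x ^ 2 := by
  obtain ⟨c, c0, hc⟩ := J_ms
  have pp := Real.pi_pos
  refine ⟨1 / (2 * Real.pi * c), by positivity, ?_⟩
  intro D W y R hR
  have R0 : 0 < R := by linarith
  obtain ⟨K, K0, hK⟩ := W.bd
  have mC := W.meas
  have bC : ∀ x, |D x ^ 2| ≤ K ^ 2 := fun x => by
    rw [abs_pow]
    exact pow_le_pow_left₀ (abs_nonneg _) (hK x) 2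
  rw [polar (mC.pow_const 2) bC y R0]
  have mc : ∀ r, Measurable fun t => D (pt r t + y) := fun r =>
    mC.comp (((pt_cont r).measurable).add_const y)
  have pw : ∀ r ∈ Icc (0 : ℝ) R, r * J r ^ 2 * D y ^ 2 ≤
      r * ∫ t, D (pt r t + y) ^ 2 ∂ui := by
    intro r hr
    have h1 := jensen (mc r) (K := K) fun t => hK _
    rw [W.mv r y] at h1
    rw [mul_assoc, ← mul_pow]
    exact mul_le_mul_of_nonneg_left h1 hr.1
  have cJ : Continuous fun r => r * J r ^ 2 * D y ^ 2 :=
    (continuous_id.mul (J_cont.pow 2)).mul continuous_const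
  have iR : IntervalIntegrable (fun r => r * ∫ t, D (pt r t + y) ^ 2 ∂ui) volume 0 R := by
    have m1 : Measurable fun r => ∫ t, D (pt r t + y) ^ 2 ∂ui := by
      have m2 : Measurable fun p : ℝ × ℝ => D (pt p.1 p.2 + y) ^ 2 :=
        (mC.comp (pt_joint.measurable.add_const y)).pow_const 2
      exact (m2.stronglyMeasurable.integral_prod_right' (ν := ui)).measurable
    rw [intervalIntegrable_iff_integrableOn_Ioc_of_le R0.le]
    refine Measure.integrableOn_of_bounded (M := R * K ^ 2) ?_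
      (measurable_id.mul m1).aestronglyMeasurable ?_
    · rw [Real.volume_Ioc]; exact ENNReal.ofReal_ne_top
    · refine (ae_restrict_iff' measurableSet_Ioc).2 (ae_of_all _ fun r hr => ?_)
      rw [norm_mul, Real.norm_eq_abs, Real.norm_eq_abs, abs_of_pos hr.1]
      refine mul_le_mul hr.2 ?_ (abs_nonneg _) R0.le
      refine (abs_integral_le_integral_abs).trans ?_
      refine (integral_mono_of_nonneg (ae_of_all _ fun t => abs_nonneg _)
        (integrable_const (K ^ 2)) (ae_of_all _ fun t => bC _)).trans ?_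
      simp
  have h2 := intervalIntegral.integral_mono_on R0.le (cJ.intervalIntegrable _ _) iR pw
  rw [intervalIntegral.integral_mul_const] at h2
  have h3 : c * R * D y ^ 2 ≤ ∫ r in (0 : ℝ)..R, r * ∫ t, D (pt r t + y) ^ 2 ∂ui :=
    (mul_le_mul_of_nonneg_right (hc R hR) (sq_nonneg _)).trans h2
  obtain ⟨I, hI⟩ : ∃ I, I = ∫ r in (0 : ℝ)..R, r * ∫ t, D (pt r t + y) ^ 2 ∂ui :=
    ⟨_, rfl⟩
  rw [← hI] at h3 ⊢
  have e : 1 / (2 * Real.pi * c) / R * (2 * Real.pi * I) = I / (c * R) := by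
    field_simp
  rw [e, le_div_iff₀ (by positivity)]
  linarith

/-- **dichotomy** -/
theorem dich2 {D : E 2 → ℝ} (W : Mvp D)
    (h : ∀ ε : ℝ, 0 < ε → ∀ R₀ : ℝ, ∃ R, R₀ ≤ R ∧
      ∫ x in Metric.ball (0 : E 2) R, D x ^ 2 ≤ ε * R) (y : E 2) : D y = 0 := by
  obtain ⟨C, C0, hC⟩ := rellich2
  obtain ⟨K, K0, hK⟩ := W.bd
  have mC := W.meas
  have key : ∀ ε : ℝ, 0 < ε → D y ^ 2 ≤ 2 * C * ε := by
    intro ε hε
    obtain ⟨R', hR', hI⟩ := h ε hε (2 * ‖y‖ + 2)
    have y0 := norm_nonneg y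
    obtain ⟨R, hR⟩ : ∃ R, R = R' - ‖y‖ := ⟨_, rfl⟩
    have R1 : 1 ≤ R := by rw [hR]; linarith
    have R0 : 0 < R := by linarith
    have R2 : R' ≤ 2 * R := by rw [hR]; linarith
    have sub : Metric.ball y R ⊆ Metric.ball (0 : E 2) R' := by
      refine Metric.ball_subset_ball' ?_
      rw [dist_zero_right, hR]; linarith
    have i1 : IntegrableOn (fun x => D x ^ 2) (Metric.ball (0 : E 2) R') := by
      refine Measure.integrableOn_of_bounded (M := K ^ 2) measure_ball_lt_top.ne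
        (mC.pow_const 2).aestronglyMeasurable (ae_of_all _ fun x => ?_)
      rw [Real.norm_eq_abs, abs_pow]
      exact pow_le_pow_left₀ (abs_nonneg _) (hK x) 2
    have h1 := hC W y R R1
    have h2 : ∫ x in Metric.ball y R, D x ^ 2 ≤ ε * R' :=
      (setIntegral_mono_set i1 (ae_of_all _ fun x => sq_nonneg _) sub.eventuallyLE).trans hI
    refine h1.trans ?_
    rw [div_mul_eq_mul_div, div_le_iff₀ R0]
    have h3 : ε * R' ≤ ε * (2 * R) := mul_le_mul_of_nonneg_left R2 hε.le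
    nlinarith [mul_le_mul_of_nonneg_left (h2.trans h3) C0.le]
  have h0 : D y ^ 2 ≤ 0 := by
    refine le_of_forall_pos_le_add fun ε hε => ?_
    have := key (ε / (2 * C)) (by positivity)
    have e : 2 * C * (ε / (2 * C)) = ε := by field_simp
    linarith
  exact pow_eq_zero_iff two_ne_zero |>.1 (le_antisymm h0 (sq_nonneg _))

/-- polar form of vectors -/
lemma exists_pt (z : E 2) : ∃ b : ℝ, ∀ u : ℝ,
    inner ℝ (pt 1 u) z = ‖z‖ * Real.cos (2 * Real.pi * u + b) := by
  by_cases hz : z = 0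
  · exact ⟨0, fun u => by rw [hz]; simp⟩
  have z0 : 0 < ‖z‖ := norm_pos_iff.2 hz
  have h1 : ‖(‖z‖⁻¹ • z)‖ = 1 := by
    rw [norm_smul, norm_inv, norm_norm, inv_mul_cancel₀ z0.ne']
  obtain ⟨β, hb0, hb1⟩ := ex_beta h1
  refine ⟨-β, fun u => ?_⟩
  have h2 := pt_inner hb0 hb1 1 u
  rw [one_mul, real_inner_comm, real_inner_smul_right] at h2
  rw [← h2]
  field_simp

/-- `J₀(|z|)` as an average of plane waves -/
lemma J_norm (z : E 2) : J ‖z‖ = ∫ u, Real.cos (inner ℝ (pt 1 u) z) ∂ui := by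
  obtain ⟨b, hb⟩ := exists_pt z
  simp only [hb]
  have hf : Function.Periodic (fun x => Real.cos (‖z‖ * Real.cos x)) (2 * Real.pi) :=
    fun x => by simp only [Real.cos_add_two_pi]
  have e1 := per_int (f := fun x => Real.cos (‖z‖ * Real.cos x)) (by fun_prop) hf b
  have e2 := per_int (f := fun x => Real.cos (‖z‖ * Real.cos x)) (by fun_prop) hf 0
  have e3 : J ‖z‖ = ∫ t, Real.cos (‖z‖ * Real.cos (2 * Real.pi * t + 0)) ∂ui := by
    unfold J
    rw [ui_int]
    simp only [add_zero]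
  rw [e3]
  exact e2.trans e1.symm

lemma J_bd (r : ℝ) : |J r| ≤ 1 := by
  have h : ‖∫ t in (0 : ℝ)..1, Real.cos (r * Real.cos (2 * Real.pi * t))‖ ≤ 1 * |(1 : ℝ) - 0| :=
    intervalIntegral.norm_integral_le_of_norm_le_const fun t _ => by
      rw [Real.norm_eq_abs]; exact Real.abs_cos_le_one _
  rw [sub_zero, abs_one, mul_one, Real.norm_eq_abs] at h
  exact h

lemma J_zero : J 0 = 1 := by unfold J; simp

/-- `J₀(|y - x|)` has the mean value property -/
lemma mvp_J (x : E 2) : Mvp fun y => J ‖y - x‖ := by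
  refine ⟨(J_cont.comp (continuous_norm.comp (continuous_id.sub continuous_const))).measurable,
    ⟨1, zero_le_one, fun y => J_bd _⟩, fun r y => ?_⟩
  simp only [J_norm]
  have ic : Continuous fun p : ℝ × ℝ => Real.cos (inner ℝ (pt 1 p.2) (pt r p.1 + y - x)) :=
    Real.continuous_cos.comp (((pt_cont 1).comp continuous_snd).inner
      ((((pt_cont r).comp continuous_fst).add continuous_const).sub continuous_const))
  have i3 : Integrable (fun p : ℝ × ℝ => Real.cos (inner ℝ (pt 1 p.2) (pt r p.1 + y - x)))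
      (ui.prod ui) := by
    refine Integrable.mono' (integrable_const (1 : ℝ)) ic.aestronglyMeasurable
      (ae_of_all _ fun p => ?_)
    rw [Real.norm_eq_abs]; exact Real.abs_cos_le_one _
  rw [integral_integral_swap (f := fun t u => Real.cos (inner ℝ (pt 1 u) (pt r t + y - x))) i3,
    ← integral_const_mul]
  refine integral_congr_ae (ae_of_all _ fun u => ?_)
  show ∫ t, Real.cos (inner ℝ (pt 1 u) (pt r t + y - x)) ∂ui =
    J r * Real.cos (inner ℝ (pt 1 u) (y - x))
  have n1 : ‖pt 1 u‖ = 1 := pt_norm zero_le_one u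
  have ci : Continuous fun t => inner ℝ (pt 1 u) (pt r t) := continuous_const.inner (pt_cont r)
  have j1 : Integrable (fun t => Real.cos (inner ℝ (pt 1 u) (y - x)) *
      Real.cos (inner ℝ (pt 1 u) (pt r t))) ui :=
    (ui_cont (Real.continuous_cos.comp ci)).const_mul _
  have j2 : Integrable (fun t => Real.sin (inner ℝ (pt 1 u) (y - x)) *
      Real.sin (inner ℝ (pt 1 u) (pt r t))) ui :=
    (ui_cont (Real.continuous_sin.comp ci)).const_mul _
  have e3 : ∀ t, Real.cos (inner ℝ (pt 1 u) (pt r t + y - x)) =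
      Real.cos (inner ℝ (pt 1 u) (y - x)) * Real.cos (inner ℝ (pt 1 u) (pt r t)) -
      Real.sin (inner ℝ (pt 1 u) (y - x)) * Real.sin (inner ℝ (pt 1 u) (pt r t)) := by
    intro t
    rw [add_sub_assoc, inner_add_right, Real.cos_add]
    ring
  simp only [e3]
  rw [integral_sub j1 j2, integral_const_mul, integral_const_mul, pt_cos r _ n1, pt_sin r _ n1]
  ring

lemma Mvp.cont_ae {D : E 2 → ℝ} (W : Mvp D) (r : ℝ) (y : E 2) :
    Integrable (fun t => D (pt r t + y)) ui := by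
  obtain ⟨K, _, hK⟩ := W.bd
  exact Integrable.mono' (integrable_const K)
    (W.meas.comp (((pt_cont r).measurable).add_const y)).aestronglyMeasurable
    (ae_of_all _ fun t => by rw [Real.norm_eq_abs]; exact hK _)

lemma Mvp.add {D D' : E 2 → ℝ} (W : Mvp D) (W' : Mvp D') : Mvp fun y => D y + D' y := by
  refine ⟨W.meas.add W'.meas, ?_, fun r y => ?_⟩
  · obtain ⟨K, K0, hK⟩ := W.bd
    obtain ⟨K', K0', hK'⟩ := W'.bd
    exact ⟨K + K', by positivity, fun y => (abs_add_le _ _).trans (add_le_add (hK y) (hK' y))⟩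
  · rw [integral_add (W.cont_ae r y) (W'.cont_ae r y), W.mv, W'.mv]
    ring

lemma Mvp.smul {D : E 2 → ℝ} (W : Mvp D) (c : ℝ) : Mvp fun y => c * D y := by
  refine ⟨W.meas.const_mul c, ?_, fun r y => ?_⟩
  · obtain ⟨K, K0, hK⟩ := W.bd
    exact ⟨|c| * K, by positivity, fun y => by
      rw [abs_mul]; exact mul_le_mul_of_nonneg_left (hK y) (abs_nonneg _)⟩
  · rw [integral_const_mul, W.mv]
    ring

lemma Mvp.zero : Mvp fun _ => 0 :=
  ⟨measurable_const, ⟨0, le_rfl, fun _ => by simp⟩, fun r y => by simp⟩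

lemma Mvp.sum {ι : Type*} (s : Finset ι) {D : ι → E 2 → ℝ} (W : ∀ i, Mvp (D i)) :
    Mvp fun y => ∑ i ∈ s, D i y := by
  classical
  induction s using Finset.induction_on with
  | empty => simpa using Mvp.zero
  | insert a s ha ih =>
    simp only [Finset.sum_insert ha]
    exact (W a).add ih

variable {S : Type*} [MeasurableSpace S] {P : Measure S}

lemma mvp_cr [IsProbabilityMeasure P] {F : S → E 2 → ℝ} (M : MV P F) {Z : S → ℝ}
    (mZ : Measurable Z) (iZ : Integrable (fun s => Z s ^ 2) P) : Mvp (Cr P F Z) :=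
  ⟨Cr_meas M mZ, Cr_bd M mZ iZ, fun r y => mvD M mZ iZ r y⟩

/-- `∑ t_j J₀(|y - x_j|)` -/
def KJ {n : ℕ} (x : Fin n → E 2) (t : Fin n → ℝ) (y : E 2) : ℝ := ∑ j, t j * J ‖y - x j‖

lemma mvp_KJ {n : ℕ} (x : Fin n → E 2) (t : Fin n → ℝ) : Mvp (KJ x t) :=
  Mvp.sum Finset.univ fun j => (mvp_J (x j)).smul (t j)

/-- the defects with the model covariance -/
def Rc (P : Measure S) (F : S → E 2 → ℝ) {n : ℕ} (x : Fin n → E 2) (t : Fin n → ℝ) (y : E 2) :
    ℝ := ∫ s, F s y * Real.cos (Ln F x t s) ∂P + (∫ s, Real.sin (Ln F x t s) ∂P) * KJ x t y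

/-- the defects with the model covariance -/
def Rs (P : Measure S) (F : S → E 2 → ℝ) {n : ℕ} (x : Fin n → E 2) (t : Fin n → ℝ) (y : E 2) :
    ℝ := ∫ s, F s y * Real.sin (Ln F x t s) ∂P - (∫ s, Real.cos (Ln F x t s) ∂P) * KJ x t y

/-- vanishing of the defects -/
theorem van [IsProbabilityMeasure P] {F : S → E 2 → ℝ} (M : MV P F) {n : ℕ}
    (x : Fin n → E 2) (t : Fin n → ℝ)
    (h : ∀ ε : ℝ, 0 < ε → ∀ R₀ : ℝ, ∃ R, R₀ ≤ R ∧
      ∫ y in Metric.ball (0 : E 2) R, (Rc P F x t y ^ 2 + Rs P F x t y ^ 2) ≤ ε * R) (y : E 2) :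
    Rc P F x t y = 0 ∧ Rs P F x t y = 0 := by
  have mZ := Ln_meas M x t
  have mc := Real.measurable_cos.comp mZ
  have ms := Real.measurable_sin.comp mZ
  have w1 : Mvp (Rc P F x t) := by
    have h1 := (mvp_cr M mc (bdi mc fun s => Real.abs_cos_le_one _)).add
      ((mvp_KJ x t).smul (∫ s, Real.sin (Ln F x t s) ∂P))
    have e : Rc P F x t = fun y => Cr P F (Real.cos ∘ Ln F x t) y +
        (∫ s, Real.sin (Ln F x t s) ∂P) * KJ x t y := by
      funext y
      unfold Rc Cr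
      congr 2
      funext s
      exact mul_comm _ _
    rw [e]; exact h1
  have w2 : Mvp (Rs P F x t) := by
    have h1 := (mvp_cr M ms (bdi ms fun s => Real.abs_sin_le_one _)).add
      ((mvp_KJ x t).smul (-(∫ s, Real.cos (Ln F x t s) ∂P)))
    have e : Rs P F x t = fun y => Cr P F (Real.sin ∘ Ln F x t) y +
        (-(∫ s, Real.cos (Ln F x t s) ∂P)) * KJ x t y := by
      funext y
      unfold Rs Cr
      rw [neg_mul, ← sub_eq_add_neg]
      congr 2
      funext s
      exact mul_comm _ _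
    rw [e]; exact h1
  have intg : ∀ {D : E 2 → ℝ}, Mvp D → ∀ R : ℝ,
      IntegrableOn (fun y => D y ^ 2) (Metric.ball (0 : E 2) R) := by
    intro D W R
    obtain ⟨K, K0, hK⟩ := W.bd
    refine Measure.integrableOn_of_bounded (M := K ^ 2) measure_ball_lt_top.ne
      (W.meas.pow_const 2).aestronglyMeasurable (ae_of_all _ fun x => ?_)
    rw [Real.norm_eq_abs, abs_pow]
    exact pow_le_pow_left₀ (abs_nonneg _) (hK x) 2
  refine ⟨dich2 w1 (fun ε hε R₀ => ?_) y, dich2 w2 (fun ε hε R₀ => ?_) y⟩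
  · obtain ⟨R, hR, hI⟩ := h ε hε R₀
    refine ⟨R, hR, le_trans (integral_mono (intg w1 R)
      ((intg w1 R).add (intg w2 R)) fun y => ?_) hI⟩
    exact le_add_of_nonneg_right (sq_nonneg _)
  · obtain ⟨R, hR, hI⟩ := h ε hε R₀
    refine ⟨R, hR, le_trans (integral_mono (intg w2 R)
      ((intg w1 R).add (intg w2 R)) fun y => ?_) hI⟩
    exact le_add_of_nonneg_left (sq_nonneg _)

end

end Pool.Agent.X103.Rw
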