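import Pool.Agent.X103.Rw.E

/-! # The random wave model -/

set_option autoImplicit false
open MeasureTheory Filter Topology Set
open scoped ContDiff ENNReal

namespace Pool.Agent.X103.Rw

open Pool.Agent.Y139.SW Pool.Agent.X127.SW

noncomputable section

variable {S : Type*} [MeasurableSpace S] {P : Measure S}

/-- if the defects vanish then the covariance is that of the model -/
theorem cov_of_van [IsProbabilityMeasure P] {F : S → E 2 → ℝ} (M : MV P F)
    (h : ∀ (x : Fin 1 → E 2) (t : Fin 1 → ℝ) (y : E 2), Rs P F x t y = 0) (x y : E 2) :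
    ∫ s, F s y * F s x ∂P = J ‖y - x‖ := by
  obtain ⟨X, hX⟩ : ∃ X : S → ℝ, X = fun s => F s x := ⟨_, rfl⟩
  obtain ⟨Y, hY⟩ : ∃ Y : S → ℝ, Y = fun s => F s y := ⟨_, rfl⟩
  have mX : Measurable X := by rw [hX]; exact M.meas x
  have mY : Measurable Y := by rw [hY]; exact M.meas y
  have iX : Integrable (fun s => X s ^ 2) P := by rw [hX]; exact M.l2 x
  have iY : Integrable (fun s => Y s ^ 2) P := by rw [hY]; exact M.l2 y
  have iXY : Integrable (fun s => Y s * X s) P := mul_l2 mY mX iY iX
  have iX1 : Integrable X P := l2_l1 mX iX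
  have id1 : ∀ u : ℝ, ∫ s, Y s * Real.sin (u * X s) ∂P =
      (∫ s, Real.cos (u * X s) ∂P) * (u * J ‖y - x‖) := by
    intro u
    have h1 := h (fun _ => x) (fun _ => u) y
    unfold Rs KJ Ln at h1
    simp only [Fin.sum_univ_one] at h1
    rw [hX, hY]
    show ∫ s, F s y * Real.sin (u * F s x) ∂P = (∫ s, Real.cos (u * F s x) ∂P) * (u * J ‖y - x‖)
    linarith
  have mc : ∀ u : ℝ, Measurable fun s => Real.cos (u * X s) := fun u =>
    Real.measurable_cos.comp (mX.const_mul u)
  have ms : ∀ u : ℝ, Measurable fun s => Real.sin (u * X s) := fun u =>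
    Real.measurable_sin.comp (mX.const_mul u)
  have b1 : ∀ f : S → ℝ, Measurable f → (∀ s, |f s| ≤ 1) → Integrable f P := fun f mf hf =>
    Integrable.mono' (integrable_const (1 : ℝ)) mf.aestronglyMeasurable
      (ae_of_all _ fun s => by rw [Real.norm_eq_abs]; exact hf s)
  have d1 : HasDerivAt (fun u : ℝ => ∫ s, Y s * Real.sin (u * X s) ∂P)
      (∫ s, Y s * (X s * Real.cos (0 * X s)) ∂P) 0 :=
    (hasDerivAt_integral_of_dominated_loc_of_deriv_le (μ := P)
      (F := fun u s => Y s * Real.sin (u * X s))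
      (F' := fun u s => Y s * (X s * Real.cos (u * X s)))
      (x₀ := (0 : ℝ)) (s := Set.univ) (bound := fun s => |Y s * X s|) Filter.univ_mem
      (Eventually.of_forall fun v => (mY.mul (ms v)).aestronglyMeasurable)
      (mul_l2 mY (ms 0) iY (bdi (ms 0) fun s => Real.abs_sin_le_one _))
      (mY.mul (mX.mul (mc 0))).aestronglyMeasurable
      (ae_of_all _ fun s v _ => by
        rw [← mul_assoc, norm_mul, Real.norm_eq_abs, Real.norm_eq_abs]
        exact mul_le_of_le_one_right (abs_nonneg _) (Real.abs_cos_le_one _))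
      iXY.abs
      (ae_of_all _ fun s v _ => by
        have h1 := ((((hasDerivAt_id v).mul_const (X s))).sin).const_mul (Y s)
        refine h1.congr_deriv ?_
        simp only [id_eq]; ring)).2
  have d2 : HasDerivAt (fun u : ℝ => ∫ s, Real.cos (u * X s) ∂P)
      (∫ s, -(X s * Real.sin (0 * X s)) ∂P) 0 :=
    (hasDerivAt_integral_of_dominated_loc_of_deriv_le (μ := P)
      (F := fun u s => Real.cos (u * X s))
      (F' := fun u s => -(X s * Real.sin (u * X s)))
      (x₀ := (0 : ℝ)) (s := Set.univ) (bound := fun s => |X s|) Filter.univ_mem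
      (Eventually.of_forall fun v => (mc v).aestronglyMeasurable)
      (b1 _ (mc 0) fun s => Real.abs_cos_le_one _)
      (mX.mul (ms 0)).neg.aestronglyMeasurable
      (ae_of_all _ fun s v _ => by
        rw [norm_neg, norm_mul, Real.norm_eq_abs, Real.norm_eq_abs]
        exact mul_le_of_le_one_right (abs_nonneg _) (Real.abs_sin_le_one _))
      iX1.abs
      (ae_of_all _ fun s v _ => by
        have h1 := ((hasDerivAt_id v).mul_const (X s)).cos
        refine h1.congr_deriv ?_
        simp only [id_eq]; ring)).2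
  have d3 := d2.mul ((hasDerivAt_id (0 : ℝ)).mul_const (J ‖y - x‖))
  have e : (fun u : ℝ => ∫ s, Y s * Real.sin (u * X s) ∂P) =
      (fun u : ℝ => ∫ s, Real.cos (u * X s) ∂P) * fun u => id u * J ‖y - x‖ := by
    funext u
    exact id1 u
  rw [e] at d1
  have r := d1.unique d3
  simp only [id_eq, zero_mul, Real.cos_zero, mul_one, mul_zero, zero_add, one_mul,
    integral_const, smul_eq_mul, probReal_univ] at r
  rw [hX, hY] at r
  exact r

/-- correlations with linear statistics -/
lemma lin_cov {F : S → E 2 → ℝ} (M : MV P F)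
    (hc : ∀ x y : E 2, ∫ s, F s y * F s x ∂P = J ‖y - x‖) {n : ℕ} (x : Fin n → E 2)
    (t : Fin n → ℝ) (y : E 2) : ∫ s, F s y * Ln F x t s ∂P = KJ x t y := by
  unfold Ln KJ
  have e : ∀ s, F s y * ∑ j, t j * F s (x j) = ∑ j, t j * (F s y * F s (x j)) := fun s => by
    rw [Finset.mul_sum]
    exact Finset.sum_congr rfl fun j _ => by ring
  simp only [e]
  rw [integral_finsetSum _ fun j _ => (mul_l2 (M.meas y) (M.meas (x j)) (M.l2 y)
    (M.l2 (x j))).const_mul _]
  exact Finset.sum_congr rfl fun j _ => by rw [integral_const_mul, hc]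

/-- **the model criterion** -/
theorem model_iff [IsProbabilityMeasure P] {F : S → E 2 → ℝ} (M : MV P F) :
    (IsG P F ∧ ∀ x y : E 2, ∫ s, F s y * F s x ∂P = J ‖y - x‖) ↔
    ∀ (n : ℕ) (x : Fin n → E 2) (t : Fin n → ℝ), ∀ ε : ℝ, 0 < ε → ∀ R₀ : ℝ, ∃ R, R₀ ≤ R ∧
      ∫ y in Metric.ball (0 : E 2) R, (Rc P F x t y ^ 2 + Rs P F x t y ^ 2) ≤ ε * R := by
  constructor
  · intro h n x t ε hε R₀
    have z : ∀ y, Rc P F x t y = 0 ∧ Rs P F x t y = 0 := by
      intro y
      have h1 := conv M h.1 x t y
      unfold Dc Ds at h1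
      rw [lin_cov M h.2 x t y] at h1
      exact h1
    refine ⟨max R₀ 0, le_max_left _ _, ?_⟩
    simp only [fun y => (z y).1, fun y => (z y).2]
    simp only [ne_eq, OfNat.ofNat_ne_zero, not_false_eq_true, zero_pow, add_zero, integral_zero]
    positivity
  · intro h
    have hc := cov_of_van M fun x t y => (van M x t (h 1 x t) y).2
    refine ⟨fun n x t => ?_, hc⟩
    have g := gauss M x t (fun u ε hε R₀ => ?_) 1
    · simp only [one_mul, one_pow] at g
      exact g
    · refine ⟨max R₀ 0, le_max_left _ _, ?_⟩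
      have z : ∀ y, Dc P F (fun s => u * Ln F x t s) y = 0 ∧
          Ds P F (fun s => u * Ln F x t s) y = 0 := by
        intro y
        rw [Ln_mul F x t u]
        have h1 := van M x (fun j => u * t j) (h n x _) y
        unfold Rc Rs at h1
        rw [← lin_cov M hc x _ y] at h1
        exact h1
      simp only [fun y => (z y).1, fun y => (z y).2]
      simp only [ne_eq, OfNat.ofNat_ne_zero, not_false_eq_true, zero_pow, add_zero, integral_zero]
      positivity

/-- the defects of the model vanish -/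
theorem model_zero [IsProbabilityMeasure P] {F : S → E 2 → ℝ} (M : MV P F)
    (h : IsG P F ∧ ∀ x y : E 2, ∫ s, F s y * F s x ∂P = J ‖y - x‖) {n : ℕ} (x : Fin n → E 2)
    (t : Fin n → ℝ) (y : E 2) : Rc P F x t y = 0 ∧ Rs P F x t y = 0 := by
  have h1 := conv M h.1 x t y
  unfold Dc Ds at h1
  rw [lin_cov M h.2 x t y] at h1
  exact h1

end

end Pool.Agent.X103.Rw
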