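import Pool.Agent.X103.Rw.F

/-! # Stability: one scale suffices -/

set_option autoImplicit false
open MeasureTheory Filter Topology Set
open scoped ContDiff ENNReal

namespace Pool.Agent.X103.Rw

open Pool.Agent.Y139.SW Pool.Agent.X127.SW

noncomputable section

/-- the variance of the model -/
def VJ {n : ℕ} (x : Fin n → E 2) (t : Fin n → ℝ) : ℝ := ∑ j, t j * KJ x t (x j)

lemma VJ_nn {n : ℕ} (x : Fin n → E 2) (t : Fin n → ℝ) : 0 ≤ VJ x t := by
  have hi : ∀ (c : ℝ) (j k : Fin n),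
      Integrable (fun u => c * Real.cos (inner ℝ (pt 1 u) (x j - x k))) ui := fun c j k =>
    (ui_cont (Real.continuous_cos.comp ((pt_cont 1).inner continuous_const))).const_mul _
  have e : VJ x t = ∫ u, ∑ j, t j * ∑ k, t k * Real.cos (inner ℝ (pt 1 u) (x j - x k)) ∂ui := by
    unfold VJ KJ
    rw [integral_finsetSum _ fun j _ =>
      (integrable_finsetSum _ fun k _ => hi (t k) j k).const_mul (t j)]
    refine Finset.sum_congr rfl fun j _ => ?_
    rw [integral_const_mul, integral_finsetSum _ fun k _ => hi (t k) j k]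
    congr 1
    refine Finset.sum_congr rfl fun k _ => ?_
    rw [integral_const_mul, J_norm]
  rw [e]
  refine integral_nonneg fun u => ?_
  have e2 : ∑ j, t j * ∑ k, t k * Real.cos (inner ℝ (pt 1 u) (x j - x k)) =
      (∑ j, t j * Real.cos (inner ℝ (pt 1 u) (x j))) ^ 2 +
        (∑ j, t j * Real.sin (inner ℝ (pt 1 u) (x j))) ^ 2 := by
    rw [sq, sq, Finset.sum_mul_sum, Finset.sum_mul_sum, ← Finset.sum_add_distrib]
    refine Finset.sum_congr rfl fun j _ => ?_
    rw [Finset.mul_sum, ← Finset.sum_add_distrib]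
    refine Finset.sum_congr rfl fun k _ => ?_
    rw [inner_sub_right, Real.cos_sub]
    ring
  show 0 ≤ ∑ j, t j * ∑ k, t k * Real.cos (inner ℝ (pt 1 u) (x j - x k))
  rw [e2]
  positivity

lemma ode_stab {V B : ℝ} (hV : 0 ≤ V) {a e : ℝ → ℝ}
    (ha : ∀ u, HasDerivAt a (-(u * V) * a u + e u) u) (he : ∀ u ∈ Icc (0 : ℝ) 1, |e u| ≤ B) :
    |a 1 - a 0 * Real.exp (-V / 2)| ≤ B := by
  have B0 : 0 ≤ B := (abs_nonneg _).trans (he 0 ⟨le_rfl, zero_le_one⟩)
  obtain ⟨g, hg⟩ : ∃ g : ℝ → ℝ, g = fun u => a u * Real.exp (u ^ 2 * V / 2) := ⟨_, rfl⟩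
  have dg : ∀ u : ℝ, HasDerivAt g (e u * Real.exp (u ^ 2 * V / 2)) u := by
    intro u
    have h3 : HasDerivAt (fun u : ℝ => u ^ 2 * V / 2) (u * V) u := by
      have := (((hasDerivAt_id u).pow 2).mul_const V).div_const 2
      refine this.congr_deriv ?_
      simp only [id_eq]; norm_num; ring
    rw [hg]
    refine ((ha u).mul h3.exp).congr_deriv ?_
    ring
  have h := norm_image_sub_le_of_norm_deriv_le_segment_01' (f := g)
    (f' := fun u => e u * Real.exp (u ^ 2 * V / 2)) (C := B * Real.exp (V / 2))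
    (fun u _ => (dg u).hasDerivWithinAt) (fun u hu => by
      rw [norm_mul, Real.norm_eq_abs, Real.norm_eq_abs, abs_of_pos (Real.exp_pos _)]
      refine mul_le_mul (he u ⟨hu.1, hu.2.le⟩) (Real.exp_le_exp.2 ?_) (Real.exp_pos _).le B0
      have : u ^ 2 ≤ 1 := by nlinarith [hu.1, hu.2]
      nlinarith)
  have e1 : g 1 = a 1 * Real.exp (V / 2) := by rw [hg]; norm_num
  have e0 : g 0 = a 0 := by rw [hg]; simp
  rw [e1, e0, Real.norm_eq_abs] at h
  have ep := Real.exp_pos (V / 2)
  have e2 : a 1 - a 0 * Real.exp (-V / 2) = (a 1 * Real.exp (V / 2) - a 0) * Real.exp (-V / 2) := by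
    have : Real.exp (V / 2) * Real.exp (-V / 2) = 1 := by
      rw [← Real.exp_add]
      have : V / 2 + -V / 2 = 0 := by ring
      rw [this, Real.exp_zero]
    linear_combination -(a 1) * this
  rw [e2, abs_mul, abs_of_pos (Real.exp_pos _)]
  calc |a 1 * Real.exp (V / 2) - a 0| * Real.exp (-V / 2) ≤
      B * Real.exp (V / 2) * Real.exp (-V / 2) :=
        mul_le_mul_of_nonneg_right h (Real.exp_pos _).le
    _ = B := by
        rw [mul_assoc, ← Real.exp_add]
        have : V / 2 + -V / 2 = 0 := by ring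
        rw [this, Real.exp_zero, mul_one]

variable {S : Type*} [MeasurableSpace S] {P : Measure S}

lemma mvp_Rc [IsProbabilityMeasure P] {F : S → E 2 → ℝ} (M : MV P F) {n : ℕ}
    (x : Fin n → E 2) (t : Fin n → ℝ) : Mvp (Rc P F x t) := by
  have mZ := Ln_meas M x t
  have mc := Real.measurable_cos.comp mZ
  have h1 := (mvp_cr M mc (bdi mc fun s => Real.abs_cos_le_one _)).add
    ((mvp_KJ x t).smul (∫ s, Real.sin (Ln F x t s) ∂P))
  have e : Rc P F x t = fun y => Cr P F (Real.cos ∘ Ln F x t) y +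
      (∫ s, Real.sin (Ln F x t s) ∂P) * KJ x t y := by
    funext y
    unfold Rc Cr
    congr 2
    funext s
    exact mul_comm _ _
  rw [e]; exact h1

lemma mvp_Rs [IsProbabilityMeasure P] {F : S → E 2 → ℝ} (M : MV P F) {n : ℕ}
    (x : Fin n → E 2) (t : Fin n → ℝ) : Mvp (Rs P F x t) := by
  have mZ := Ln_meas M x t
  have ms := Real.measurable_sin.comp mZ
  have h1 := (mvp_cr M ms (bdi ms fun s => Real.abs_sin_le_one _)).add
    ((mvp_KJ x t).smul (-(∫ s, Real.cos (Ln F x t s) ∂P)))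
  have e : Rs P F x t = fun y => Cr P F (Real.sin ∘ Ln F x t) y +
      (-(∫ s, Real.cos (Ln F x t s) ∂P)) * KJ x t y := by
    funext y
    unfold Rs Cr
    rw [neg_mul, ← sub_eq_add_neg]
    congr 2
    funext s
    exact mul_comm _ _
  rw [e]; exact h1

lemma mvp_int {D : E 2 → ℝ} (W : Mvp D) (x : E 2) (R : ℝ) :
    IntegrableOn (fun y => D y ^ 2) (Metric.ball x R) := by
  obtain ⟨K, K0, hK⟩ := W.bd
  refine Measure.integrableOn_of_bounded (M := K ^ 2) measure_ball_lt_top.ne
    (W.meas.pow_const 2).aestronglyMeasurable (ae_of_all _ fun x => ?_)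
  rw [Real.norm_eq_abs, abs_pow]
  exact pow_le_pow_left₀ (abs_nonneg _) (hK x) 2

lemma KJ_mul {n : ℕ} (x : Fin n → E 2) (t : Fin n → ℝ) (u : ℝ) (y : E 2) :
    KJ x (fun j => u * t j) y = u * KJ x t y := by
  unfold KJ
  rw [Finset.mul_sum]
  exact Finset.sum_congr rfl fun j _ => by ring

/-- **stability at one scale** -/
theorem stab : ∃ C : ℝ, 0 < C ∧ ∀ {S : Type*} [MeasurableSpace S] {P : Measure S}
    [IsProbabilityMeasure P] {F : S → E 2 → ℝ} (_ : MV P F) {n : ℕ} (x : Fin n → E 2)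
    (t : Fin n → ℝ) (R δ : ℝ), 1 ≤ R → 0 ≤ δ →
    (∀ u ∈ Icc (0 : ℝ) 1, ∀ j, ∫ y in Metric.ball (x j) R,
      (Rc P F x (fun k => u * t k) y ^ 2 + Rs P F x (fun k => u * t k) y ^ 2) ≤ δ ^ 2 * R) →
    |∫ s, Real.cos (Ln F x t s) ∂P - Real.exp (-VJ x t / 2)| ≤ C * δ * ∑ j, |t j| ∧
      |∫ s, Real.sin (Ln F x t s) ∂P| ≤ C * δ * ∑ j, |t j| := by
  obtain ⟨C0, C0p, hC⟩ := rellich2
  refine ⟨Real.sqrt C0, Real.sqrt_pos.2 C0p, ?_⟩
  intro S _ P _ F M n x t R δ hR hδ hyp
  have R0 : 0 < R := by linarith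
  obtain ⟨Z, hZ⟩ : ∃ Z, Z = Ln F x t := ⟨_, rfl⟩
  have mZ : Measurable Z := by rw [hZ]; exact Ln_meas M x t
  have iZ : Integrable (fun s => Z s ^ 2) P := by rw [hZ]; exact Ln_l2 M x t
  have iZ1 : Integrable Z P := l2_l1 mZ iZ
  have hL : ∀ u : ℝ, Ln F x (fun k => u * t k) = fun s => u * Z s := fun u => by
    rw [hZ, Ln_mul]
  have b1 : ∀ f : S → ℝ, Measurable f → (∀ s, |f s| ≤ 1) → Integrable f P := fun f mf hf =>
    Integrable.mono' (integrable_const (1 : ℝ)) mf.aestronglyMeasurable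
      (ae_of_all _ fun s => by rw [Real.norm_eq_abs]; exact hf s)
  have mc : ∀ u : ℝ, Measurable fun s => Real.cos (u * Z s) := fun u =>
    Real.measurable_cos.comp (mZ.const_mul u)
  have ms : ∀ u : ℝ, Measurable fun s => Real.sin (u * Z s) := fun u =>
    Real.measurable_sin.comp (mZ.const_mul u)
  -- bounds for the defects at the points
  have bd : ∀ u ∈ Icc (0 : ℝ) 1, ∀ j, |Rc P F x (fun k => u * t k) (x j)| ≤ Real.sqrt C0 * δ ∧
      |Rs P F x (fun k => u * t k) (x j)| ≤ Real.sqrt C0 * δ := by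
    intro u hu j
    have w1 := mvp_Rc M x (fun k => u * t k)
    have w2 := mvp_Rs M x (fun k => u * t k)
    have i1 := mvp_int w1 (x j) R
    have i2 := mvp_int w2 (x j) R
    have h0 := hyp u hu j
    have fin : ∀ {D : E 2 → ℝ}, Mvp D → ∫ y in Metric.ball (x j) R, D y ^ 2 ≤ δ ^ 2 * R →
        |D (x j)| ≤ Real.sqrt C0 * δ := by
      intro D W hI
      have h1 := hC W (x j) R hR
      have h2 : D (x j) ^ 2 ≤ C0 * δ ^ 2 := by
        refine h1.trans ?_
        rw [div_mul_eq_mul_div, div_le_iff₀ R0]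
        nlinarith [mul_le_mul_of_nonneg_left hI C0p.le]
      refine abs_le_of_sq_le_sq ?_ (by positivity)
      rw [mul_pow, Real.sq_sqrt C0p.le]
      exact h2
    exact ⟨fin w1 (le_trans (integral_mono i1 (i1.add i2) fun y =>
        le_add_of_nonneg_right (sq_nonneg _)) h0),
      fin w2 (le_trans (integral_mono i2 (i1.add i2) fun y =>
        le_add_of_nonneg_left (sq_nonneg _)) h0)⟩
  have sumI : ∀ {a : S → ℝ}, Measurable a → (∀ s, |a s| ≤ 1) →
      ∫ s, Z s * a s ∂P = ∑ j, t j * ∫ s, F s (x j) * a s ∂P := by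
    intro a ma ha
    have e : ∀ s, Z s * a s = ∑ j, t j * (F s (x j) * a s) := fun s => by
      rw [hZ]; unfold Ln
      rw [Finset.sum_mul]
      exact Finset.sum_congr rfl fun j _ => by ring
    simp only [e]
    rw [integral_finsetSum _ fun j _ =>
      (mul_l2 (M.meas (x j)) ma (M.l2 _) (bdi ma ha)).const_mul _]
    exact Finset.sum_congr rfl fun j _ => integral_const_mul _ _
  have da : ∀ u : ℝ, HasDerivAt (fun u => ∫ s, Real.cos (u * Z s) ∂P)
      (-(u * VJ x t) * (∫ s, Real.cos (u * Z s) ∂P) +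
        -∑ j, t j * Rs P F x (fun k => u * t k) (x j)) u := by
    intro u
    have h := hasDerivAt_integral_of_dominated_loc_of_deriv_le (μ := P)
      (F := fun u s => Real.cos (u * Z s)) (F' := fun u s => -(Z s * Real.sin (u * Z s)))
      (x₀ := u) (s := Set.univ) (bound := fun s => |Z s|) Filter.univ_mem
      (Eventually.of_forall fun x => (mc x).aestronglyMeasurable)
      (b1 _ (mc u) fun s => Real.abs_cos_le_one _)
      (mZ.mul (ms u)).neg.aestronglyMeasurable
      (ae_of_all _ fun s x _ => by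
        rw [norm_neg, norm_mul, Real.norm_eq_abs, Real.norm_eq_abs]
        exact mul_le_of_le_one_right (abs_nonneg _) (Real.abs_sin_le_one _))
      iZ1.abs
      (ae_of_all _ fun s x _ => by
        have h1 := ((hasDerivAt_id x).mul_const (Z s)).cos
        refine h1.congr_deriv ?_
        simp only [id_eq]; ring)
    refine h.2.congr_deriv ?_
    rw [integral_neg, sumI (ms u) fun s => Real.abs_sin_le_one _]
    unfold VJ Rs
    simp only [hL, KJ_mul]
    have e : ∑ j, t j * ∫ s, F s (x j) * Real.sin (u * Z s) ∂P =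
        ∑ j, t j * (∫ s, F s (x j) * Real.sin (u * Z s) ∂P -
          (∫ s, Real.cos (u * Z s) ∂P) * (u * KJ x t (x j))) +
        u * (∫ s, Real.cos (u * Z s) ∂P) * ∑ j, t j * KJ x t (x j) := by
      rw [Finset.mul_sum, ← Finset.sum_add_distrib]
      exact Finset.sum_congr rfl fun j _ => by ring
    rw [e]
    ring
  have db : ∀ u : ℝ, HasDerivAt (fun u => ∫ s, Real.sin (u * Z s) ∂P)
      (-(u * VJ x t) * (∫ s, Real.sin (u * Z s) ∂P) +
        ∑ j, t j * Rc P F x (fun k => u * t k) (x j)) u := by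
    intro u
    have h := hasDerivAt_integral_of_dominated_loc_of_deriv_le (μ := P)
      (F := fun u s => Real.sin (u * Z s)) (F' := fun u s => Z s * Real.cos (u * Z s))
      (x₀ := u) (s := Set.univ) (bound := fun s => |Z s|) Filter.univ_mem
      (Eventually.of_forall fun x => (ms x).aestronglyMeasurable)
      (b1 _ (ms u) fun s => Real.abs_sin_le_one _)
      (mZ.mul (mc u)).aestronglyMeasurable
      (ae_of_all _ fun s x _ => by
        rw [norm_mul, Real.norm_eq_abs, Real.norm_eq_abs]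
        exact mul_le_of_le_one_right (abs_nonneg _) (Real.abs_cos_le_one _))
      iZ1.abs
      (ae_of_all _ fun s x _ => by
        have h1 := ((hasDerivAt_id x).mul_const (Z s)).sin
        refine h1.congr_deriv ?_
        simp only [id_eq]; ring)
    refine h.2.congr_deriv ?_
    rw [sumI (mc u) fun s => Real.abs_cos_le_one _]
    unfold VJ Rc
    simp only [hL, KJ_mul]
    have e : ∑ j, t j * ∫ s, F s (x j) * Real.cos (u * Z s) ∂P =
        ∑ j, t j * (∫ s, F s (x j) * Real.cos (u * Z s) ∂P +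
          (∫ s, Real.sin (u * Z s) ∂P) * (u * KJ x t (x j))) -
        u * (∫ s, Real.sin (u * Z s) ∂P) * ∑ j, t j * KJ x t (x j) := by
      rw [Finset.mul_sum, ← Finset.sum_sub_distrib]
      exact Finset.sum_congr rfl fun j _ => by ring
    rw [e]
    ring
  have sb : ∀ {r : Fin n → ℝ}, (∀ j, |r j| ≤ Real.sqrt C0 * δ) →
      |∑ j, t j * r j| ≤ Real.sqrt C0 * δ * ∑ j, |t j| := by
    intro r hr
    refine (Finset.abs_sum_le_sum_abs _ _).trans ?_
    rw [Finset.mul_sum]
    refine Finset.sum_le_sum fun j _ => ?_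
    rw [abs_mul, mul_comm]
    exact mul_le_mul_of_nonneg_right (hr j) (abs_nonneg _)
  have r1 := ode_stab (VJ_nn x t) da (B := Real.sqrt C0 * δ * ∑ j, |t j|) fun u hu => by
    rw [abs_neg]
    exact sb fun j => (bd u hu j).2
  have r2 := ode_stab (VJ_nn x t) db (B := Real.sqrt C0 * δ * ∑ j, |t j|) fun u hu =>
    sb fun j => (bd u hu j).1
  simp only [one_mul, zero_mul, Real.cos_zero, Real.sin_zero, integral_const, smul_eq_mul,
    probReal_univ, mul_one, mul_zero, sub_zero] at r1 r2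
  rw [← hZ]
  exact ⟨r1, r2⟩

end

end Pool.Agent.X103.Rw
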