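import Pool.Agent.X103.Rw.D

/-! # Correlations of value and gradient at a distance -/

set_option autoImplicit false
open MeasureTheory Filter Topology Set Asymptotics
open scoped ContDiff ENNReal

namespace Pool.Agent.X103.Rw

open Pool.Agent.Y139.SW Pool.Agent.X127.SW

noncomputable section

variable {S : Type*} [MeasurableSpace S] {P : Measure S} {τ : E 2 → S → S}

/-- derivative of correlations -/
lemma der_cr [IsProbabilityMeasure P] (hτ : ∀ x, MeasurePreserving (τ x) P P)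
    {G : S → E 2 → ℝ} (W : Wave P τ G) {Z : S → ℝ} (mZ : Measurable Z)
    (iZ : Integrable (fun s => Z s ^ 2) P) (y v : E 2) :
    HasDerivAt (fun h : ℝ => Cr P G Z (y + h • v)) (Cr P (fun s => Dv v (G s)) Z y) 0 := by
  have Wv := wdv hτ W v
  obtain ⟨m, hm⟩ : ∃ m, m = ∫ s, G s 0 ^ 2 ∂P := ⟨_, rfl⟩
  obtain ⟨q, hq⟩ : ∃ q, q = ∫ s, Z s ^ 2 ∂P := ⟨_, rfl⟩
  have bound : ∀ h : ℝ, |Cr P G Z (y + h • v) - Cr P G Z y - h * Cr P (fun s => Dv v (G s)) Z y| ≤
      (q + ‖v‖ ^ 4 * m) * h ^ 2 := by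
    intro h
    by_cases h0 : h = 0
    · rw [h0]; simp
    obtain ⟨X, hX⟩ : ∃ X : S → ℝ, X = fun s => G s (y + h • v) - G s y - Dv (h • v) (G s) y :=
      ⟨_, rfl⟩
    have lb := lemB hτ W y (h • v)
    rw [← hm] at lb
    have mX : Measurable X := by
      rw [hX]
      exact ((W.sf.meas _).sub (W.sf.meas _)).sub ((wdv hτ W (h • v)).sf.meas y)
    have iX : Integrable (fun s => X s ^ 2) P := by rw [hX]; exact lb.1
    have bX : ∫ s, X s ^ 2 ∂P ≤ ‖h • v‖ ^ 4 * m := by rw [hX]; exact lb.2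
    have e1 : Cr P G Z (y + h • v) - Cr P G Z y - h * Cr P (fun s => Dv v (G s)) Z y =
        ∫ s, Z s * X s ∂P := by
      unfold Cr
      have j1 := mul_l2 mZ (W.sf.meas (y + h • v)) iZ (sqi hτ W (y + h • v))
      have j2 := mul_l2 mZ (W.sf.meas y) iZ (sqi hτ W y)
      have j3 : Integrable (fun s => h * (Z s * Dv v (G s) y)) P :=
        (mul_l2 mZ (Wv.sf.meas y) iZ (sqi hτ Wv y)).const_mul h
      have j4 : Integrable (fun s => Z s * G s (y + h • v) - Z s * G s y) P := j1.sub j2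
      rw [← integral_const_mul, ← integral_sub j1 j2, ← integral_sub j4 j3]
      congr 1; funext s
      have : Dv (h • v) (G s) y = h * Dv v (G s) y := by
        unfold Dv; rw [map_smul, smul_eq_mul]
      rw [hX]
      show _ = Z s * (G s (y + h • v) - G s y - Dv (h • v) (G s) y)
      rw [this]; ring
    rw [e1]
    have h2 : 0 < h ^ 2 := by positivity
    have i3 : Integrable (fun s => h ^ 2 * Z s ^ 2 + (h ^ 2)⁻¹ * X s ^ 2) P :=
      (iZ.const_mul _).add (iX.const_mul _)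
    have h3 : |∫ s, Z s * X s ∂P| ≤ ∫ s, (h ^ 2 * Z s ^ 2 + (h ^ 2)⁻¹ * X s ^ 2) ∂P := by
      refine abs_integral_le_integral_abs.trans (integral_mono (mul_l2 mZ mX iZ iX).abs i3
        fun s => ?_)
      show |Z s * X s| ≤ h ^ 2 * Z s ^ 2 + (h ^ 2)⁻¹ * X s ^ 2
      have hh : |h| ≠ 0 := abs_ne_zero.2 h0
      have e5 : |Z s * X s| = (|h| * |Z s|) * (|h|⁻¹ * |X s|) := by
        rw [abs_mul]; field_simp
      have e6 : h ^ 2 * Z s ^ 2 = (|h| * |Z s|) ^ 2 := by rw [mul_pow, sq_abs, sq_abs]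
      have e7 : (h ^ 2)⁻¹ * X s ^ 2 = (|h|⁻¹ * |X s|) ^ 2 := by
        rw [mul_pow, inv_pow, sq_abs, sq_abs]
      rw [e5, e6, e7]
      nlinarith [sq_nonneg (|h| * |Z s| - |h|⁻¹ * |X s|), sq_nonneg (|h| * |Z s|),
        sq_nonneg (|h|⁻¹ * |X s|)]
    refine h3.trans ?_
    have j5 : Integrable (fun s => h ^ 2 * Z s ^ 2) P := iZ.const_mul _
    have j6 : Integrable (fun s => (h ^ 2)⁻¹ * X s ^ 2) P := iX.const_mul _
    rw [integral_add j5 j6, integral_const_mul, integral_const_mul, ← hq]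
    have h4 : (h ^ 2)⁻¹ * ∫ s, X s ^ 2 ∂P ≤ (h ^ 2)⁻¹ * (‖h • v‖ ^ 4 * m) :=
      mul_le_mul_of_nonneg_left bX (by positivity)
    have h5 : (h ^ 2)⁻¹ * (‖h • v‖ ^ 4 * m) = ‖v‖ ^ 4 * m * h ^ 2 := by
      rw [norm_smul, mul_pow, Real.norm_eq_abs]
      have : |h| ^ 4 = h ^ 2 * h ^ 2 := by rw [← sq_abs h]; ring
      rw [this]
      field_simp
    rw [h5] at h4
    nlinarith
  rw [hasDerivAt_iff_isLittleO]
  have o1 : (fun h : ℝ => Cr P G Z (y + h • v) - Cr P G Z (y + (0 : ℝ) • v) -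
      (h - 0) • Cr P (fun s => Dv v (G s)) Z y) =O[𝓝 0] fun h : ℝ => h ^ 2 := by
    refine IsBigO.of_bound (q + ‖v‖ ^ 4 * m) (Eventually.of_forall fun h => ?_)
    rw [zero_smul, add_zero, sub_zero, smul_eq_mul, Real.norm_eq_abs, Real.norm_eq_abs,
      abs_of_nonneg (sq_nonneg h)]
    exact bound h
  refine o1.trans_isLittleO ?_
  simp only [sub_zero]
  exact isLittleO_pow_id one_lt_two

/-- derivative of the norm -/
lemma der_norm {y v : E 2} (hy : y ≠ 0) :
    HasDerivAt (fun h : ℝ => ‖y + h • v‖) (inner ℝ y v / ‖y‖) 0 := by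
  have y0 : 0 < ‖y‖ := norm_pos_iff.2 hy
  have e : (fun h : ℝ => ‖y + h • v‖) =
      fun h : ℝ => Real.sqrt (‖y‖ ^ 2 + 2 * (h * inner ℝ y v) + h ^ 2 * ‖v‖ ^ 2) := by
    funext h
    have h1 : ‖y + h • v‖ ^ 2 = ‖y‖ ^ 2 + 2 * (h * inner ℝ y v) + h ^ 2 * ‖v‖ ^ 2 := by
      rw [norm_add_sq_real, real_inner_smul_right, norm_smul, mul_pow, Real.norm_eq_abs, sq_abs]
    rw [← h1, Real.sqrt_sq (norm_nonneg _)]
  rw [e]
  have h2 : HasDerivAt (fun h : ℝ => ‖y‖ ^ 2 + 2 * (h * inner ℝ y v) + h ^ 2 * ‖v‖ ^ 2)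
      (2 * inner ℝ y v) 0 := by
    have := (((hasDerivAt_id (0 : ℝ)).mul_const (inner ℝ y v)).const_mul 2).const_add (‖y‖ ^ 2)
    have h3 := this.add (((hasDerivAt_id (0 : ℝ)).pow 2).mul_const (‖v‖ ^ 2))
    refine h3.congr_deriv ?_
    simp
  have h4 := h2.sqrt (by simp [y0.ne'])
  refine h4.congr_deriv ?_
  simp only [zero_mul, mul_zero, add_zero, ne_eq, OfNat.ofNat_ne_zero, not_false_eq_true,
    zero_pow, Real.sqrt_sq y0.le]
  field_simp

/-- **the correlation of value and gradient at a distance** -/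
theorem vg [IsProbabilityMeasure P] (hτ : ∀ x, MeasurePreserving (τ x) P P)
    {G : S → E 2 → ℝ} (W : Wave P τ G)
    (hrot : ∀ ρ : E 2 ≃ₗᵢ[ℝ] E 2, P.map (fun s y => G s (ρ y)) = P.map (fun s y => G s y))
    {k : ℝ → ℝ} (hk : ContDiff ℝ ∞ k) {B : ℝ} (hB : ∀ z, |deriv k z| ≤ B)
    (iK : Integrable (fun s => k (G s 0) ^ 2) P) {y : E 2} (hy : y ≠ 0) (i : Fin 2) :
    ∫ s, G s y * D i (G s) 0 * deriv k (G s 0) ∂P =
      -(J1 ‖y‖ * (y i / ‖y‖)) * ∫ s, G s 0 * k (G s 0) ∂P := by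
  have M := mv_wave hτ W
  obtain ⟨e, he⟩ : ∃ e : E 2, e = EuclideanSpace.single i (1 : ℝ) := ⟨_, rfl⟩
  have mZ : Measurable fun s => k (G s 0) := hk.continuous.measurable.comp (W.sf.meas 0)
  have Wi := W.der hτ i
  have Wy := tr_wave hτ W y
  have mk' : Measurable (deriv k) := (hk.continuous_deriv (by simp)).measurable
  -- the derivative of the correlation
  have d1 := der_cr hτ W mZ iK y e
  have hreg : ∀ x, Cr P G (fun s => k (G s 0)) x =
      J ‖x‖ * ∫ s, k (G s 0) * G s 0 ∂P := fun x =>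
    iso_reg M hrot hk.continuous.measurable iK x
  have d2 : HasDerivAt (fun h : ℝ => J ‖y + h • e‖ * ∫ s, k (G s 0) * G s 0 ∂P)
      (J1 ‖y‖ * (inner ℝ y e / ‖y‖) * ∫ s, k (G s 0) * G s 0 ∂P) 0 := by
    have h1 : HasDerivAt J (J1 ‖y + (0 : ℝ) • e‖) ‖y + (0 : ℝ) • e‖ := hJ _
    have h2 := h1.comp (0 : ℝ) (der_norm (v := e) hy)
    rw [zero_smul, add_zero] at h2
    exact h2.mul_const _
  simp only [hreg] at d1
  have r1 := d1.unique d2
  -- stationarity
  have sf : SF τ (fun s z => G s (z + y) * k (G s z)) := Wy.sf.mul (W.sf.comp hk)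
  have val : ∀ s, D i (fun z => G s (z + y) * k (G s z)) 0 =
      D i (G s) y * k (G s 0) + G s y * (deriv k (G s 0) * D i (G s) 0) := by
    intro s
    have hm := D_mul (f := fun z => G s (z + y)) (g := fun z => k (G s z)) (Wy.sf.smooth s)
      (hk.comp (W.sf.smooth s)) i 0
    rw [hm, D_comp hk (W.sf.smooth s)]
    have : D i (fun z => G s (z + y)) 0 = D i (G s) y := by
      rw [D_tr]
      show D i (G s) (0 + y) = D i (G s) y
      rw [zero_add]
    rw [this, zero_add]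
  have j1 : Integrable (fun s => D i (G s) y * k (G s 0)) P :=
    mul_l2 (Wi.sf.meas y) mZ (sqi hτ Wi y) iK
  have mw : Measurable fun s => deriv k (G s 0) * D i (G s) 0 :=
    (mk'.comp (W.sf.meas 0)).mul (Wi.sf.meas 0)
  have iw : Integrable (fun s => (deriv k (G s 0) * D i (G s) 0) ^ 2) P := by
    refine Integrable.mono' (Wi.l2.const_mul (B ^ 2)) (mw.pow_const 2).aestronglyMeasurable
      (ae_of_all _ fun s => ?_)
    rw [Real.norm_eq_abs, abs_of_nonneg (sq_nonneg _), mul_pow]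
    refine mul_le_mul_of_nonneg_right ?_ (sq_nonneg _)
    rw [← sq_abs]
    exact pow_le_pow_left₀ (abs_nonneg _) (hB _) 2
  have j2 : Integrable (fun s => G s y * (deriv k (G s 0) * D i (G s) 0)) P :=
    mul_l2 (W.sf.meas y) mw (sqi hτ W y) iw
  have i0 : Integrable (fun s => G s (0 + y) * k (G s 0)) P := by
    rw [zero_add]
    exact mul_l2 (W.sf.meas y) mZ (sqi hτ W y) iK
  have i1 : Integrable (fun s => D i (fun z => G s (z + y) * k (G s z)) 0) P := by
    simp only [val]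
    exact j1.add j2
  have z := div0 hτ sf i i0 i1
  simp only [val] at z
  rw [integral_add j1 j2] at z
  have e2 : ∫ s, D i (G s) y * k (G s 0) ∂P =
      J1 ‖y‖ * (inner ℝ y e / ‖y‖) * ∫ s, k (G s 0) * G s 0 ∂P := by
    rw [← r1]
    unfold Cr
    congr 1; funext s
    rw [he]
    show D i (G s) y * k (G s 0) = k (G s 0) * D i (G s) y
    ring
  have e3 : inner ℝ y e = y i := by
    rw [he, EuclideanSpace.inner_single_right]
    simp
  have e4 : ∫ s, G s y * D i (G s) 0 * deriv k (G s 0) ∂P =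
      ∫ s, G s y * (deriv k (G s 0) * D i (G s) 0) ∂P := by
    congr 1; funext s; ring
  have e5 : ∫ s, G s 0 * k (G s 0) ∂P = ∫ s, k (G s 0) * G s 0 ∂P := by
    congr 1; funext s; ring
  rw [e4, e5]
  rw [e2, e3] at z
  linarith

end

end Pool.Agent.X103.Rw
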