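import Pool.Agent.X103.Rw.H

/-! # The normal law and the correlation of value and gradient -/

set_option autoImplicit false
open MeasureTheory Filter Topology Set
open scoped ContDiff ENNReal

namespace Pool.Agent.X103.Rw

open Pool.Agent.Y139.SW Pool.Agent.X127.SW

noncomputable section

variable {S : Type*} [MeasurableSpace S] {P : Measure S} {τ : E 2 → S → S}

/-- characteristic function of the normal law -/
def ChN (P : Measure S) (Z : S → ℝ) : Prop := ∀ u : ℝ,
  ∫ s, Real.cos (u * Z s) ∂P = Real.exp (-(u ^ 2 * ∫ s, Z s ^ 2 ∂P) / 2) ∧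
    ∫ s, Real.sin (u * Z s) ∂P = 0

lemma law_iff [IsProbabilityMeasure P] {Z : S → ℝ} (mZ : Measurable Z) :
    P.map Z = ProbabilityTheory.gaussianReal 0 (∫ s, Z s ^ 2 ∂P).toNNReal ↔ ChN P Z := by
  have V0 : 0 ≤ ∫ s, Z s ^ 2 ∂P := integral_nonneg fun s => sq_nonneg _
  have hG : ∀ u : ℝ, charFun (ProbabilityTheory.gaussianReal 0 (∫ s, Z s ^ 2 ∂P).toNNReal) u =
      ((Real.exp (-(u ^ 2 * ∫ s, Z s ^ 2 ∂P) / 2) : ℝ) : ℂ) := by
    intro u
    rw [ProbabilityTheory.charFun_gaussianReal]
    simp only [Real.coe_toNNReal _ V0, Complex.ofReal_zero, zero_mul, mul_zero]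
    rw [Complex.ofReal_exp]
    congr 1
    push_cast
    ring
  have bi : ∀ f : S → ℝ, Measurable f → (∀ s, |f s| ≤ 1) → Integrable f P := fun f mf hf =>
    Integrable.mono' (integrable_const (1 : ℝ)) mf.aestronglyMeasurable
      (ae_of_all _ fun s => by rw [Real.norm_eq_abs]; exact hf s)
  have hZ : ∀ u : ℝ, charFun (P.map Z) u = ((∫ s, Real.cos (u * Z s) ∂P : ℝ) : ℂ) +
      ((∫ s, Real.sin (u * Z s) ∂P : ℝ) : ℂ) * Complex.I := by
    intro u
    rw [charFun_apply_real, integral_map mZ.aemeasurable (by fun_prop)]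
    have ic := bi (fun s => Real.cos (u * Z s))
      (Real.measurable_cos.comp (mZ.const_mul u)) fun s => Real.abs_cos_le_one _
    have is := bi (fun s => Real.sin (u * Z s))
      (Real.measurable_sin.comp (mZ.const_mul u)) fun s => Real.abs_sin_le_one _
    have e : ∀ s, Complex.exp ((u : ℂ) * (Z s : ℂ) * Complex.I) =
        ((Real.cos (u * Z s) : ℝ) : ℂ) + ((Real.sin (u * Z s) : ℝ) : ℂ) * Complex.I := by
      intro s
      rw [← Complex.ofReal_mul, Complex.exp_mul_I, Complex.ofReal_cos, Complex.ofReal_sin]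
    simp only [e]
    rw [integral_add ic.ofReal (is.ofReal.mul_const _), integral_mul_const,
      integral_complex_ofReal, integral_complex_ofReal]
  constructor
  · intro h u
    have h1 := hZ u
    rw [h, hG] at h1
    have h2 := congrArg Complex.re h1
    have h3 := congrArg Complex.im h1
    simp only [Complex.ofReal_re, Complex.ofReal_im, Complex.add_re, Complex.add_im,
      Complex.mul_re, Complex.mul_im, Complex.I_re, Complex.I_im, mul_zero, mul_one,
      zero_mul, sub_zero, add_zero, zero_add] at h2 h3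
    exact ⟨h2.symm, h3.symm⟩
  · intro h
    refine Measure.ext_of_charFun ?_
    funext u
    rw [hZ, hG, (h u).1, (h u).2]
    simp

/-- Stein's identities for the normal law -/
lemma chn_stein [IsProbabilityMeasure P] {Z : S → ℝ} (mZ : Measurable Z)
    (iZ : Integrable (fun s => Z s ^ 2) P) (h : ChN P Z) (u : ℝ) :
    ∫ s, Z s * Real.cos (u * Z s) ∂P = 0 ∧
      ∫ s, Z s * Real.sin (u * Z s) ∂P =
        (∫ s, Real.cos (u * Z s) ∂P) * (u * ∫ s, Z s ^ 2 ∂P) := by
  have iZ1 : Integrable Z P := l2_l1 mZ iZ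
  have b1 : ∀ f : S → ℝ, Measurable f → (∀ s, |f s| ≤ 1) → Integrable f P := fun f mf hf =>
    Integrable.mono' (integrable_const (1 : ℝ)) mf.aestronglyMeasurable
      (ae_of_all _ fun s => by rw [Real.norm_eq_abs]; exact hf s)
  have mc : ∀ u : ℝ, Measurable fun s => Real.cos (u * Z s) := fun u =>
    Real.measurable_cos.comp (mZ.const_mul u)
  have ms : ∀ u : ℝ, Measurable fun s => Real.sin (u * Z s) := fun u =>
    Real.measurable_sin.comp (mZ.const_mul u)
  have da := (hasDerivAt_integral_of_dominated_loc_of_deriv_le (μ := P)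
      (F := fun u s => Real.cos (u * Z s)) (F' := fun u s => -(Z s * Real.sin (u * Z s)))
      (x₀ := u) (s := Set.univ) (bound := fun s => |Z s|) Filter.univ_mem
      (Eventually.of_forall fun x => (mc x).aestronglyMeasurable)
      (b1 _ (mc u) fun s => Real.abs_cos_le_one _)
      (mZ.mul (ms u)).neg.aestronglyMeasurable
      (ae_of_all _ fun s x _ => by
        rw [norm_neg, norm_mul, Real.norm_eq_abs, Real.norm_eq_abs]
        exact mul_le_of_le_one_right (abs_nonneg _) (Real.abs_sin_le_one _))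
      iZ1.abs
      (ae_of_all _ fun s x _ => by
        have h1 := ((hasDerivAt_id x).mul_const (Z s)).cos
        refine h1.congr_deriv ?_
        simp only [id_eq]; ring)).2
  have db := (hasDerivAt_integral_of_dominated_loc_of_deriv_le (μ := P)
      (F := fun u s => Real.sin (u * Z s)) (F' := fun u s => Z s * Real.cos (u * Z s))
      (x₀ := u) (s := Set.univ) (bound := fun s => |Z s|) Filter.univ_mem
      (Eventually.of_forall fun x => (ms x).aestronglyMeasurable)
      (b1 _ (ms u) fun s => Real.abs_sin_le_one _)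
      (mZ.mul (mc u)).aestronglyMeasurable
      (ae_of_all _ fun s x _ => by
        rw [norm_mul, Real.norm_eq_abs, Real.norm_eq_abs]
        exact mul_le_of_le_one_right (abs_nonneg _) (Real.abs_cos_le_one _))
      iZ1.abs
      (ae_of_all _ fun s x _ => by
        have h1 := ((hasDerivAt_id x).mul_const (Z s)).sin
        refine h1.congr_deriv ?_
        simp only [id_eq]; ring)).2
  have f1 : (fun u : ℝ => ∫ s, Real.cos (u * Z s) ∂P) =
      fun u => Real.exp (-(u ^ 2 * ∫ s, Z s ^ 2 ∂P) / 2) := funext fun u => (h u).1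
  have f2 : (fun u : ℝ => ∫ s, Real.sin (u * Z s) ∂P) = fun _ => 0 := funext fun u => (h u).2
  rw [f1] at da
  rw [f2] at db
  obtain ⟨V, hV⟩ : ∃ V, V = ∫ s, Z s ^ 2 ∂P := ⟨_, rfl⟩
  rw [(h u).1]
  rw [← hV] at da ⊢
  have h3 : HasDerivAt (fun u : ℝ => -(u ^ 2 * V) / 2) (-(u * V)) u := by
    have := ((((hasDerivAt_id u).pow 2).mul_const V).neg).div_const 2
    refine this.congr_deriv ?_
    simp only [id_eq]; norm_num; ring
  have r1 := da.unique h3.exp
  have r2 := db.unique (hasDerivAt_const u (0 : ℝ))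
  rw [integral_neg] at r1
  refine ⟨r2, ?_⟩
  linarith

/-- the conditional correlation of `G(y)` and the derivative at `0` is constant -/
def CC (P : Measure S) (G : S → E 2 → ℝ) (y : E 2) (i : Fin 2) : Prop := ∃ c : ℝ, ∀ u : ℝ,
  ∫ s, G s y * D i (G s) 0 * Real.cos (u * G s 0) ∂P = c * ∫ s, Real.cos (u * G s 0) ∂P ∧
  ∫ s, G s y * D i (G s) 0 * Real.sin (u * G s 0) ∂P = c * ∫ s, Real.sin (u * G s 0) ∂P

/-- **criterion** -/
theorem crit [IsProbabilityMeasure P] (hτ : ∀ x, MeasurePreserving (τ x) P P)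
    {G : S → E 2 → ℝ} (W : Wave P τ G)
    (hrot : ∀ ρ : E 2 ≃ₗᵢ[ℝ] E 2, P.map (fun s y => G s (ρ y)) = P.map (fun s y => G s y))
    {y : E 2} (i : Fin 2) (hy : J1 ‖y‖ * y i ≠ 0) :
    ChN P (fun s => G s 0) ↔ CC P G y i := by
  have y0 : y ≠ 0 := by
    intro h
    apply hy
    rw [h]; simp
  have ny : 0 < ‖y‖ := norm_pos_iff.2 y0
  obtain ⟨a, ha⟩ : ∃ a, a = J1 ‖y‖ * (y i / ‖y‖) := ⟨_, rfl⟩
  have a0 : a ≠ 0 := by
    rw [ha, ← mul_div_assoc]
    exact div_ne_zero hy ny.ne'
  have m0 := W.sf.meas 0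
  obtain ⟨Z, hZ⟩ : ∃ Z : S → ℝ, Z = fun s => G s 0 := ⟨_, rfl⟩
  have mZ : Measurable Z := by rw [hZ]; exact m0
  have iZ : Integrable (fun s => Z s ^ 2) P := by rw [hZ]; exact W.l2
  obtain ⟨V, hV⟩ : ∃ V, V = ∫ s, Z s ^ 2 ∂P := ⟨_, rfl⟩
  have gZ : ∀ s, G s 0 = Z s := fun s => by rw [hZ]
  -- the three applications of the identity
  have v0 : ∫ s, G s y * D i (G s) 0 ∂P = -a * V := by
    have h := vg hτ W hrot (k := fun z => z) contDiff_id (B := 1) (fun z => by simp) W.l2 y0 i
    rw [← ha] at h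
    have e1 : ∀ s, G s y * D i (G s) 0 * deriv (fun z : ℝ => z) (G s 0) =
        G s y * D i (G s) 0 := fun s => by simp
    simp only [e1] at h
    rw [h, hV]
    congr 1
    congr 1; funext s; rw [gZ]; ring
  have v1 : ∀ u : ℝ, u * ∫ s, G s y * D i (G s) 0 * Real.cos (u * Z s) ∂P =
      -a * ∫ s, Z s * Real.sin (u * Z s) ∂P := by
    intro u
    have dk : ∀ z : ℝ, deriv (fun z : ℝ => Real.sin (u * z)) z = u * Real.cos (u * z) := by
      intro z
      have h1 : HasDerivAt (fun z : ℝ => u * z) u z := by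
        simpa using (hasDerivAt_id z).const_mul u
      rw [h1.sin.deriv]; ring
    have h := vg hτ W hrot (k := fun z => Real.sin (u * z))
      (Real.contDiff_sin.comp (contDiff_const.mul contDiff_id)) (B := |u|) (fun z => by
        rw [dk, abs_mul]
        exact mul_le_of_le_one_right (abs_nonneg _) (Real.abs_cos_le_one _))
      (bdi (Real.measurable_sin.comp (m0.const_mul u)) fun s => Real.abs_sin_le_one _) y0 i
    rw [← ha] at h
    simp only [dk, gZ] at h
    rw [← h, ← integral_const_mul]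
    congr 1; funext s; ring
  have v2 : ∀ u : ℝ, -u * ∫ s, G s y * D i (G s) 0 * Real.sin (u * Z s) ∂P =
      -a * ∫ s, Z s * Real.cos (u * Z s) ∂P := by
    intro u
    have dk : ∀ z : ℝ, deriv (fun z : ℝ => Real.cos (u * z)) z = -(u * Real.sin (u * z)) := by
      intro z
      have h1 : HasDerivAt (fun z : ℝ => u * z) u z := by
        simpa using (hasDerivAt_id z).const_mul u
      rw [h1.cos.deriv]; ring
    have h := vg hτ W hrot (k := fun z => Real.cos (u * z))
      (Real.contDiff_cos.comp (contDiff_const.mul contDiff_id)) (B := |u|) (fun z => by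
        rw [dk, abs_neg, abs_mul]
        exact mul_le_of_le_one_right (abs_nonneg _) (Real.abs_sin_le_one _))
      (bdi (Real.measurable_cos.comp (m0.const_mul u)) fun s => Real.abs_cos_le_one _) y0 i
    rw [← ha] at h
    simp only [dk, gZ] at h
    rw [← h, ← integral_const_mul]
    congr 1; funext s; ring
  rw [← hZ]
  constructor
  · intro h
    refine ⟨-a * V, fun u => ?_⟩
    simp only [gZ]
    have st := chn_stein mZ iZ h u
    rw [← hV] at st
    by_cases hu : u = 0
    · rw [hu]
      simp only [zero_mul, Real.cos_zero, Real.sin_zero, mul_one, mul_zero, integral_zero,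
        integral_const, smul_eq_mul, probReal_univ]
      exact ⟨v0, trivial⟩
    · have w1 := v1 u
      have w2 := v2 u
      rw [st.2] at w1
      rw [st.1] at w2
      have z2 := (h u).2
      refine ⟨?_, ?_⟩
      · have : u * (∫ s, G s y * D i (G s) 0 * Real.cos (u * Z s) ∂P) =
            u * (-a * V * ∫ s, Real.cos (u * Z s) ∂P) := by rw [w1]; ring
        exact mul_left_cancel₀ hu this
      · rw [z2, mul_zero]
        have : -u * (∫ s, G s y * D i (G s) 0 * Real.sin (u * Z s) ∂P) = -u * 0 := by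
          rw [w2]; ring
        exact mul_left_cancel₀ (neg_ne_zero.2 hu) this
  · rintro ⟨c, hc⟩
    simp only [gZ] at hc
    have c0 : c = -a * V := by
      have h0 := (hc 0).1
      simp only [zero_mul, Real.cos_zero, mul_one, integral_const, smul_eq_mul,
        probReal_univ] at h0
      rw [← h0, v0]
    have s1 : ∀ u : ℝ, ∫ s, Z s * Real.cos (u * Z s) ∂P =
        -(∫ s, Real.sin (u * Z s) ∂P) * (u * ∫ s, Z s ^ 2 ∂P) := by
      intro u
      have w2 := v2 u
      rw [(hc u).2, c0] at w2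
      rw [← hV]
      have : a * (∫ s, Z s * Real.cos (u * Z s) ∂P) =
          a * (-(∫ s, Real.sin (u * Z s) ∂P) * (u * V)) := by linarith
      exact mul_left_cancel₀ a0 this
    have s2 : ∀ u : ℝ, ∫ s, Z s * Real.sin (u * Z s) ∂P =
        (∫ s, Real.cos (u * Z s) ∂P) * (u * ∫ s, Z s ^ 2 ∂P) := by
      intro u
      have w1 := v1 u
      rw [(hc u).1, c0] at w1
      rw [← hV]
      have : a * (∫ s, Z s * Real.sin (u * Z s) ∂P) =
          a * ((∫ s, Real.cos (u * Z s) ∂P) * (u * V)) := by linarith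
      exact mul_left_cancel₀ a0 this
    intro u
    exact stein_gauss mZ iZ s1 s2 u

end

end Pool.Agent.X103.Rw
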