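import Pool.Agent.X103.Rw.I

/-! # Transfer to arbitrary probability spaces -/

set_option autoImplicit false
open MeasureTheory Filter Topology Set
open scoped ContDiff ENNReal

namespace Pool.Agent.X103.Rw

open Pool.Agent.Y139.SW Pool.Agent.X127.SW

noncomputable section

variable {S : Type*} [MeasurableSpace S] {P : Measure S}

/-- the identity and the criterion for fields on arbitrary probability spaces -/
theorem field_crit [IsProbabilityMeasure P] {F : S → E 2 → ℝ}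
    (mF : ∀ y, Measurable fun s => F s y)
    (sF : ∀ s, ContDiff ℝ ∞ (F s)) (eF : ∀ s y, Lap (F s) y + F s y = 0)
    (st : ∀ x : E 2, P.map (fun s y => F s (y + x)) = P.map (fun s y => F s y))
    (l2 : Integrable (fun s => F s 0 ^ 2) P)
    (hrot : ∀ ρ : E 2 ≃ₗᵢ[ℝ] E 2, P.map (fun s y => F s (ρ y)) = P.map (fun s y => F s y)) :
    (∀ {k : ℝ → ℝ}, ContDiff ℝ ∞ k → ∀ {B : ℝ}, (∀ z, |deriv k z| ≤ B) →
      Integrable (fun s => k (F s 0) ^ 2) P → ∀ {y : E 2}, y ≠ 0 → ∀ i : Fin 2,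
      ∫ s, F s y * D i (F s) 0 * deriv k (F s 0) ∂P =
        -(J1 ‖y‖ * (y i / ‖y‖)) * ∫ s, F s 0 * k (F s 0) ∂P) ∧
    ∀ {y : E 2} (i : Fin 2), J1 ‖y‖ * y i ≠ 0 →
      (ChN P (fun s => F s 0) ↔ CC P F y i) := by
  obtain ⟨Ψ, mΨ, v1, hQ, hτ, W⟩ := red (P := P) mF sF eF st l2
  have tr : ∀ φ : Sp 2 → ℝ, Measurable φ → ∫ f, φ f ∂(P.map Ψ) = ∫ s, φ (Ψ s) ∂P :=
    fun φ hφ => integral_map mΨ.aemeasurable hφ.aestronglyMeasurable
  have mg : ∀ z : E 2, Measurable fun f : Sp 2 => f.1 z := W.sf.meas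
  have rot : ∀ ρ : E 2 ≃ₗᵢ[ℝ] E 2, (P.map Ψ).map (fun (f : Sp 2) y => f.1 (ρ y)) =
      (P.map Ψ).map (fun (f : Sp 2) y => f.1 y) := by
    intro ρ
    rw [Measure.map_map (measurable_pi_iff.2 fun y => mg (ρ y)) mΨ,
      Measure.map_map (measurable_pi_iff.2 fun y => mg y) mΨ]
    have e1 : (fun (f : Sp 2) y => f.1 (ρ y)) ∘ Ψ = fun s y => F s (ρ y) := by
      funext s y
      show (Ψ s).1 (ρ y) = _
      rw [v1]
    have e2 : (fun (f : Sp 2) y => f.1 y) ∘ Ψ = fun s y => F s y := by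
      funext s y
      show (Ψ s).1 y = _
      rw [v1]
    rw [e1, e2]
    exact hrot ρ
  have md : ∀ i : Fin 2, Measurable fun f : Sp 2 => D i f.1 0 := fun i => (W.der hτ i).sf.meas 0
  refine ⟨fun {k} hk {B} hB iK {y} hy i => ?_, fun {y} i hy => ?_⟩
  · have mk : Measurable k := hk.continuous.measurable
    have mk' : Measurable (deriv k) := (hk.continuous_deriv (by simp)).measurable
    have iK2 : Integrable (fun f : Sp 2 => k (f.1 0) ^ 2) (P.map Ψ) := by
      refine (integrable_map_measure ((mk.comp (mg 0)).pow_const 2).aestronglyMeasurable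
        mΨ.aemeasurable).2 (iK.congr (ae_of_all _ fun s => ?_))
      show k (F s 0) ^ 2 = k ((Ψ s).1 0) ^ 2
      rw [v1]
    have h := vg hτ W rot hk hB iK2 hy i
    rw [tr (fun f => f.1 y * D i f.1 0 * deriv k (f.1 0))
      (((mg y).mul (md i)).mul (mk'.comp (mg 0))),
      tr (fun f => f.1 0 * k (f.1 0)) ((mg 0).mul (mk.comp (mg 0)))] at h
    simp only [v1] at h
    exact h
  · have h := crit hτ W rot i hy
    unfold ChN CC at h ⊢
    have c1 : ∀ u : ℝ, ∫ f : Sp 2, Real.cos (u * f.1 0) ∂(P.map Ψ) =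
        ∫ s, Real.cos (u * F s 0) ∂P := fun u => by
      rw [tr (fun f => Real.cos (u * f.1 0)) (Real.measurable_cos.comp ((mg 0).const_mul u))]
      simp only [v1]
    have c2 : ∀ u : ℝ, ∫ f : Sp 2, Real.sin (u * f.1 0) ∂(P.map Ψ) =
        ∫ s, Real.sin (u * F s 0) ∂P := fun u => by
      rw [tr (fun f => Real.sin (u * f.1 0)) (Real.measurable_sin.comp ((mg 0).const_mul u))]
      simp only [v1]
    have c3 : ∫ f : Sp 2, f.1 0 ^ 2 ∂(P.map Ψ) = ∫ s, F s 0 ^ 2 ∂P := by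
      rw [tr (fun f => f.1 0 ^ 2) ((mg 0).pow_const 2)]
      simp only [v1]
    have c4 : ∀ u : ℝ, ∫ f : Sp 2, f.1 y * D i f.1 0 * Real.cos (u * f.1 0) ∂(P.map Ψ) =
        ∫ s, F s y * D i (F s) 0 * Real.cos (u * F s 0) ∂P := fun u => by
      rw [tr (fun f => f.1 y * D i f.1 0 * Real.cos (u * f.1 0))
        (((mg y).mul (md i)).mul (Real.measurable_cos.comp ((mg 0).const_mul u)))]
      simp only [v1]
    have c5 : ∀ u : ℝ, ∫ f : Sp 2, f.1 y * D i f.1 0 * Real.sin (u * f.1 0) ∂(P.map Ψ) =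
        ∫ s, F s y * D i (F s) 0 * Real.sin (u * F s 0) ∂P := fun u => by
      rw [tr (fun f => f.1 y * D i f.1 0 * Real.sin (u * f.1 0))
        (((mg y).mul (md i)).mul (Real.measurable_sin.comp ((mg 0).const_mul u)))]
      simp only [v1]
    simp only [c1, c2, c3, c4, c5] at h
    exact h

end

end Pool.Agent.X103.Rw
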