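import Pool.Agent.X127.SW.QS
import Pool.Agent.X127.SW.Red

/-! # Linear regression for isotropic waves in every dimension -/

set_option autoImplicit false
open MeasureTheory Filter Topology Set Asymptotics
open scoped ContDiff ENNReal

namespace Pool.Agent.X103.Rw.Dim

open Pool.Agent.Y139.SW Pool.Agent.X127.SW

noncomputable section

variable {d : ℕ} {S : Type*} [MeasurableSpace S] {P : Measure S} {τ : E d → S → S}

/-- correlation with a square integrable random variable -/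
def Cr (P : Measure S) (F : S → E d → ℝ) (Z : S → ℝ) (y : E d) : ℝ := ∫ s, Z s * F s y ∂P

/-- derivative of correlations -/
lemma der_cr [IsProbabilityMeasure P] (hτ : ∀ x, MeasurePreserving (τ x) P P)
    {G : S → E d → ℝ} (W : Wave P τ G) {Z : S → ℝ} (mZ : Measurable Z)
    (iZ : Integrable (fun s => Z s ^ 2) P) (y v : E d) :
    HasDerivAt (fun h : ℝ => Cr P G Z (y + h • v)) (Cr P (fun s => Dv v (G s)) Z y) 0 := by
  have Wv := wdv hτ W v
  obtain ⟨m, hm⟩ : ∃ m, m = ∫ s, G s 0 ^ 2 ∂P := ⟨_, rfl⟩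
  obtain ⟨q, hq⟩ : ∃ q, q = ∫ s, Z s ^ 2 ∂P := ⟨_, rfl⟩
  have bound : ∀ h : ℝ, |Cr P G Z (y + h • v) - Cr P G Z y - h * Cr P (fun s => Dv v (G s)) Z y| ≤
      (q + ‖v‖ ^ 4 * m) * h ^ 2 := by
    intro h
    by_cases h0 : h = 0
    · rw [h0]; simp
    obtain ⟨X, hX⟩ : ∃ X : S → ℝ, X = fun s => G s (y + h • v) - G s y - Dv (h • v) (G s) y :=
      ⟨_, rfl⟩
    have lb := lemB hτ W y (h • v)
    rw [← hm] at lb
    have mX : Measurable X := by
      rw [hX]
      exact ((W.sf.meas _).sub (W.sf.meas _)).sub ((wdv hτ W (h • v)).sf.meas y)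
    have iX : Integrable (fun s => X s ^ 2) P := by rw [hX]; exact lb.1
    have bX : ∫ s, X s ^ 2 ∂P ≤ ‖h • v‖ ^ 4 * m := by rw [hX]; exact lb.2
    have e1 : Cr P G Z (y + h • v) - Cr P G Z y - h * Cr P (fun s => Dv v (G s)) Z y =
        ∫ s, Z s * X s ∂P := by
      unfold Cr
      have j1 := mul_l2 mZ (W.sf.meas (y + h • v)) iZ (sqi hτ W (y + h • v))
      have j2 := mul_l2 mZ (W.sf.meas y) iZ (sqi hτ W y)
      have j3 : Integrable (fun s => h * (Z s * Dv v (G s) y)) P :=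
        (mul_l2 mZ (Wv.sf.meas y) iZ (sqi hτ Wv y)).const_mul h
      have j4 : Integrable (fun s => Z s * G s (y + h • v) - Z s * G s y) P := j1.sub j2
      rw [← integral_const_mul, ← integral_sub j1 j2, ← integral_sub j4 j3]
      congr 1; funext s
      have : Dv (h • v) (G s) y = h * Dv v (G s) y := by
        unfold Dv; rw [map_smul, smul_eq_mul]
      rw [hX]
      show _ = Z s * (G s (y + h • v) - G s y - Dv (h • v) (G s) y)
      rw [this]; ring
    rw [e1]
    have h2 : 0 < h ^ 2 := by positivity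
    have i3 : Integrable (fun s => h ^ 2 * Z s ^ 2 + (h ^ 2)⁻¹ * X s ^ 2) P :=
      (iZ.const_mul _).add (iX.const_mul _)
    have h3 : |∫ s, Z s * X s ∂P| ≤ ∫ s, (h ^ 2 * Z s ^ 2 + (h ^ 2)⁻¹ * X s ^ 2) ∂P := by
      refine abs_integral_le_integral_abs.trans (integral_mono (mul_l2 mZ mX iZ iX).abs i3
        fun s => ?_)
      show |Z s * X s| ≤ h ^ 2 * Z s ^ 2 + (h ^ 2)⁻¹ * X s ^ 2
      have hh : |h| ≠ 0 := abs_ne_zero.2 h0
      have e5 : |Z s * X s| = (|h| * |Z s|) * (|h|⁻¹ * |X s|) := by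
        rw [abs_mul]; field_simp
      have e6 : h ^ 2 * Z s ^ 2 = (|h| * |Z s|) ^ 2 := by rw [mul_pow, sq_abs, sq_abs]
      have e7 : (h ^ 2)⁻¹ * X s ^ 2 = (|h|⁻¹ * |X s|) ^ 2 := by
        rw [mul_pow, inv_pow, sq_abs, sq_abs]
      rw [e5, e6, e7]
      nlinarith [sq_nonneg (|h| * |Z s| - |h|⁻¹ * |X s|), sq_nonneg (|h| * |Z s|),
        sq_nonneg (|h|⁻¹ * |X s|)]
    refine h3.trans ?_
    have j5 : Integrable (fun s => h ^ 2 * Z s ^ 2) P := iZ.const_mul _
    have j6 : Integrable (fun s => (h ^ 2)⁻¹ * X s ^ 2) P := iX.const_mul _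
    rw [integral_add j5 j6, integral_const_mul, integral_const_mul, ← hq]
    have h4 : (h ^ 2)⁻¹ * ∫ s, X s ^ 2 ∂P ≤ (h ^ 2)⁻¹ * (‖h • v‖ ^ 4 * m) :=
      mul_le_mul_of_nonneg_left bX (by positivity)
    have h5 : (h ^ 2)⁻¹ * (‖h • v‖ ^ 4 * m) = ‖v‖ ^ 4 * m * h ^ 2 := by
      rw [norm_smul, mul_pow, Real.norm_eq_abs]
      have : |h| ^ 4 = h ^ 2 * h ^ 2 := by rw [← sq_abs h]; ring
      rw [this]
      field_simp
    rw [h5] at h4
    nlinarith
  rw [hasDerivAt_iff_isLittleO]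
  have o1 : (fun h : ℝ => Cr P G Z (y + h • v) - Cr P G Z (y + (0 : ℝ) • v) -
      (h - 0) • Cr P (fun s => Dv v (G s)) Z y) =O[𝓝 0] fun h : ℝ => h ^ 2 := by
    refine IsBigO.of_bound (q + ‖v‖ ^ 4 * m) (Eventually.of_forall fun h => ?_)
    rw [zero_smul, add_zero, sub_zero, smul_eq_mul, Real.norm_eq_abs, Real.norm_eq_abs,
      abs_of_nonneg (sq_nonneg h)]
    exact bound h
  refine o1.trans_isLittleO ?_
  simp only [sub_zero]
  exact isLittleO_pow_id one_lt_two

/-- derivative of the norm -/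
lemma der_norm {y v : E d} (hy : y ≠ 0) :
    HasDerivAt (fun h : ℝ => ‖y + h • v‖) (inner ℝ y v / ‖y‖) 0 := by
  have y0 : 0 < ‖y‖ := norm_pos_iff.2 hy
  have e : (fun h : ℝ => ‖y + h • v‖) =
      fun h : ℝ => Real.sqrt (‖y‖ ^ 2 + 2 * (h * inner ℝ y v) + h ^ 2 * ‖v‖ ^ 2) := by
    funext h
    have h1 : ‖y + h • v‖ ^ 2 = ‖y‖ ^ 2 + 2 * (h * inner ℝ y v) + h ^ 2 * ‖v‖ ^ 2 := by
      rw [norm_add_sq_real, real_inner_smul_right, norm_smul, mul_pow, Real.norm_eq_abs, sq_abs]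
    rw [← h1, Real.sqrt_sq (norm_nonneg _)]
  rw [e]
  have h2 : HasDerivAt (fun h : ℝ => ‖y‖ ^ 2 + 2 * (h * inner ℝ y v) + h ^ 2 * ‖v‖ ^ 2)
      (2 * inner ℝ y v) 0 := by
    have := (((hasDerivAt_id (0 : ℝ)).mul_const (inner ℝ y v)).const_mul 2).const_add (‖y‖ ^ 2)
    have h3 := this.add (((hasDerivAt_id (0 : ℝ)).pow 2).mul_const (‖v‖ ^ 2))
    refine h3.congr_deriv ?_
    simp
  have h4 := h2.sqrt (by simp [y0.ne'])
  refine h4.congr_deriv ?_
  simp only [zero_mul, mul_zero, add_zero, ne_eq, OfNat.ofNat_ne_zero, not_false_eq_true,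
    zero_pow, Real.sqrt_sq y0.le]
  field_simp

/-- **radial Helmholtz correlations vanish if they vanish at the origin** -/
theorem rad_zero [IsProbabilityMeasure P] (hτ : ∀ x, MeasurePreserving (τ x) P P)
    {G : S → E d → ℝ} (W : Wave P τ G) {Z : S → ℝ} (mZ : Measurable Z)
    (iZ : Integrable (fun s => Z s ^ 2) P)
    (rad : ∀ x y : E d, ‖x‖ = ‖y‖ → Cr P G Z x = Cr P G Z y) (z0 : Cr P G Z 0 = 0) (x : E d) :
    Cr P G Z x = 0 := by
  rcases Nat.eq_zero_or_pos d with hd | hd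
  · subst hd
    rw [Subsingleton.elim x 0]; exact z0
  obtain ⟨i, _⟩ : ∃ i : Fin d, True := ⟨⟨0, hd⟩, trivial⟩
  obtain ⟨e, he⟩ : ∃ e : Fin d → E d, e = fun j => EuclideanSpace.single j (1 : ℝ) := ⟨_, rfl⟩
  have ne : ∀ j, ‖e j‖ = 1 := fun j => by rw [he]; simp
  have dv : ∀ (j : Fin d) (f : E d → ℝ) (y : E d), Dv (e j) f y = D j f y := fun j f y => by
    rw [he]; rfl
  have in1 : ∀ j k, inner ℝ (e j) (e k) = if j = k then (1 : ℝ) else 0 := fun j k => by
    rw [he]
    simp only [EuclideanSpace.inner_single_left, map_one, one_mul]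
    simp [PiLp.single_apply, eq_comm]
  -- the profile
  obtain ⟨g, hg⟩ : ∃ g : ℝ → ℝ, g = fun r => Cr P G Z (r • e i) := ⟨_, rfl⟩
  obtain ⟨g1, hg1⟩ : ∃ g1 : ℝ → ℝ, g1 = fun r => Cr P (fun s => D i (G s)) Z (r • e i) :=
    ⟨_, rfl⟩
  obtain ⟨g2, hg2⟩ : ∃ g2 : ℝ → ℝ, g2 = fun r => Cr P (fun s => D i (D i (G s))) Z (r • e i) :=
    ⟨_, rfl⟩
  have W1 := fun j => W.der hτ j
  have shift : ∀ {H : S → E d → ℝ}, Wave P τ H → ∀ r : ℝ,
      HasDerivAt (fun r : ℝ => Cr P H Z (r • e i)) (Cr P (fun s => D i (H s)) Z (r • e i)) r := by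
    intro H WH r
    have h := der_cr hτ WH mZ iZ (r • e i) (e i)
    have e1 : (fun h : ℝ => Cr P H Z (r • e i + h • e i)) =
        fun h : ℝ => Cr P H Z ((r + h) • e i) := by
      funext h; rw [add_smul]
    rw [e1] at h
    have h' : HasDerivAt (fun h : ℝ => Cr P H Z ((r + h) • e i))
        (Cr P (fun s => Dv (e i) (H s)) Z (r • e i)) (r - r) := by rw [sub_self]; exact h
    have h2 := h'.comp_sub_const r r
    simp only [add_sub_cancel] at h2
    refine h2.congr_deriv ?_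
    unfold Cr
    congr 1; funext s
    show Z s * Dv (e i) (H s) (r • e i) = Z s * D i (H s) (r • e i)
    rw [dv]
  have dg : ∀ r, HasDerivAt g (g1 r) r := fun r => by rw [hg, hg1]; exact shift W r
  have dg1 : ∀ r, HasDerivAt g1 (g2 r) r := fun r => by rw [hg1, hg2]; exact shift (W1 i) r
  -- radial
  have gr : ∀ x : E d, Cr P G Z x = g ‖x‖ := fun x => by
    rw [hg]
    refine rad _ _ ?_
    rw [norm_smul, ne, mul_one, Real.norm_eq_abs, abs_of_nonneg (norm_nonneg x)]
  have ev : ∀ r, g (-r) = g r := fun r => by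
    rw [hg]
    refine rad _ _ ?_
    rw [norm_smul, norm_smul, norm_neg]
  have g10 : g1 0 = 0 := by
    have h1 : HasDerivAt (fun r => g (-r)) (-(g1 0)) 0 := by
      have h2 : HasDerivAt g (g1 (-0)) (-0) := by rw [neg_zero]; exact dg 0
      have := h2.comp (0 : ℝ) (hasDerivAt_neg (0 : ℝ))
      refine this.congr_deriv ?_
      rw [neg_zero]; ring
    have h3 : (fun r => g (-r)) = g := funext ev
    rw [h3] at h1
    have := h1.unique (dg 0)
    linarith
  -- first derivatives off the axis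
  have off : ∀ (j : Fin d) (x : E d), x ≠ 0 →
      Cr P (fun s => D j (G s)) Z x = g1 ‖x‖ * (inner ℝ x (e j) / ‖x‖) := by
    intro j x hx
    have h1 := der_cr hτ W mZ iZ x (e j)
    simp only [gr] at h1
    have h0 : HasDerivAt g (g1 ‖x + (0 : ℝ) • e j‖) ‖x + (0 : ℝ) • e j‖ := dg _
    have h2 := h0.comp (0 : ℝ) (der_norm (v := e j) hx)
    rw [zero_smul, add_zero] at h2
    have h3 := h1.unique h2
    rw [← h3]
    unfold Cr
    congr 1; funext s
    show Z s * D j (G s) x = Z s * Dv (e j) (G s) x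
    rw [dv]
  -- second derivatives across the axis
  have sec : ∀ (j : Fin d), j ≠ i → ∀ r : ℝ, 0 < r →
      Cr P (fun s => D j (D j (G s))) Z (r • e i) = g1 r / r := by
    intro j hj r hr
    have h1 := der_cr hτ (W1 j) mZ iZ (r • e i) (e j)
    have nz : ∀ h : ℝ, r • e i + h • e j ≠ 0 := by
      intro h h2
      have h3 : inner ℝ (r • e i + h • e j) (e i) = (0 : ℝ) := by rw [h2, inner_zero_left]
      rw [inner_add_left, real_inner_smul_left, real_inner_smul_left, in1, in1, if_pos rfl,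
        if_neg hj] at h3
      linarith
    have ip : ∀ h : ℝ, inner ℝ (r • e i + h • e j) (e j) = h := by
      intro h
      rw [inner_add_left, real_inner_smul_left, real_inner_smul_left, in1, in1, if_pos rfl,
        if_neg (Ne.symm hj)]
      ring
    have e1 : (fun h : ℝ => Cr P (fun s => D j (G s)) Z (r • e i + h • e j)) =
        fun h : ℝ => h * (g1 ‖r • e i + h • e j‖ / ‖r • e i + h • e j‖) := by
      funext h
      rw [off j _ (nz h), ip]; ring
    rw [e1] at h1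
    have nr : ‖r • e i‖ = r := by
      rw [norm_smul, ne, mul_one, Real.norm_eq_abs, abs_of_pos hr]
    have rne : r • e i ≠ 0 := by
      intro h2
      rw [h2, norm_zero] at nr
      linarith
    have dn := der_norm (v := e j) rne
    have h0 : HasDerivAt g1 (g2 ‖r • e i + (0 : ℝ) • e j‖) ‖r • e i + (0 : ℝ) • e j‖ := dg1 _
    have h2 := (h0.comp (0 : ℝ) dn).div dn (by rw [zero_smul, add_zero, nr]; exact hr.ne')
    have h3 := (hasDerivAt_id (0 : ℝ)).mul h2
    have h4 := h1.unique h3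
    simp only [Function.comp_apply, Pi.div_apply, id_eq, zero_mul, add_zero, one_mul,
      zero_smul, nr] at h4
    rw [← h4]
    unfold Cr
    congr 1; funext s
    show Z s * D j (D j (G s)) (r • e i) = Z s * Dv (e j) (D j (G s)) (r • e i)
    rw [dv]
  -- the equation
  have lap : ∀ y : E d, ∑ j, Cr P (fun s => D j (D j (G s))) Z y = -Cr P G Z y := by
    intro y
    unfold Cr
    rw [← integral_finsetSum _ fun j _ => mul_l2 mZ (((W1 j).der hτ j).sf.meas y) iZ
      (sqi hτ ((W1 j).der hτ j) y), ← integral_neg]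
    congr 1; funext s
    rw [← Finset.mul_sum]
    have : ∑ j, D j (D j (G s)) y = -G s y := W.eq s y
    rw [this]; ring
  have ode : ∀ r : ℝ, 0 < r → g2 r + (d - 1 : ℝ) * (g1 r / r) = -g r := by
    intro r hr
    have h1 := lap (r • e i)
    rw [← Finset.add_sum_erase Finset.univ _ (Finset.mem_univ i)] at h1
    have h2 : ∑ j ∈ Finset.univ.erase i, Cr P (fun s => D j (D j (G s))) Z (r • e i) =
        ∑ j ∈ Finset.univ.erase i, g1 r / r :=
      Finset.sum_congr rfl fun j hj => sec j (Finset.ne_of_mem_erase hj) r hr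
    rw [h2, Finset.sum_const, Finset.card_erase_of_mem (Finset.mem_univ i), Finset.card_univ,
      Fintype.card_fin, nsmul_eq_mul, Nat.cast_sub hd, Nat.cast_one] at h1
    rw [hg2, hg]
    exact h1
  -- energy
  have anti : AntitoneOn (fun r => g1 r ^ 2 + g r ^ 2) (Ici 0) := by
    have hdE : ∀ r : ℝ, HasDerivAt (fun r => g1 r ^ 2 + g r ^ 2)
        (2 * g1 r * g2 r + 2 * g r * g1 r) r := by
      intro r
      have := ((dg1 r).pow 2).add ((dg r).pow 2)
      refine this.congr_deriv ?_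
      simp
    refine antitoneOn_of_deriv_nonpos (convex_Ici 0)
      (fun r _ => (hdE r).continuousAt.continuousWithinAt)
      (fun r _ => ((hdE r).differentiableAt).differentiableWithinAt) fun r hr => ?_
    rw [(hdE r).deriv]
    rw [interior_Ici] at hr
    have r0 : 0 < r := hr
    have h1 := ode r r0
    have h2 : g2 r = -g r - (d - 1 : ℝ) * (g1 r / r) := by linarith
    rw [h2]
    have d1 : (0 : ℝ) ≤ d - 1 := by
      have : (1 : ℝ) ≤ d := by exact_mod_cast hd
      linarith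
    have e1 : 2 * g1 r * (-g r - (d - 1 : ℝ) * (g1 r / r)) + 2 * g r * g1 r =
        -(2 * (d - 1 : ℝ) * (g1 r ^ 2 / r)) := by ring
    rw [e1]
    have : 0 ≤ 2 * (d - 1 : ℝ) * (g1 r ^ 2 / r) := by positivity
    linarith
  rw [gr]
  have h := anti (mem_Ici.2 le_rfl) (mem_Ici.2 (norm_nonneg x)) (norm_nonneg x)
  have gz : g 0 = 0 := by rw [hg]; simpa using z0
  simp only [g10, gz] at h
  have h2 : g ‖x‖ ^ 2 ≤ 0 := by nlinarith [sq_nonneg (g1 ‖x‖)]
  exact pow_eq_zero_iff two_ne_zero |>.1 (le_antisymm h2 (sq_nonneg _))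

end

end Pool.Agent.X103.Rw.Dim
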